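import Mathlib

set_option autoImplicit false

namespace Pool.Agent.X330.LN

open Finset

def TT (w : ℤ) (f : ℤ → ℝ) (t : ℤ) : ℝ := f t + f (t - w)

def Bd (d : ℤ) (f : ℤ → ℝ) (B : ℝ) : Prop :=
  ∀ (t : ℤ) (J : Finset ℤ), ∑ j ∈ J, f (t + d * j) ≤ B

theorem TT_comm (w v : ℤ) (f : ℤ → ℝ) : TT w (TT v f) = TT v (TT w f) := by
  funext t
  unfold TT
  have e : t - w - v = t - v - w := by ring
  rw [e]
  ring

theorem TT_iter (d w : ℤ) (f : ℤ → ℝ) (k : ℕ) :
    (TT d)^[k] (TT w f) = TT w ((TT d)^[k] f) := by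
  induction k with
  | zero => rfl
  | succ k ih =>
    rw [Function.iterate_succ_apply', ih, TT_comm, ← Function.iterate_succ_apply' (TT d)]

theorem bd_pair {D d w : ℤ} {g : ℤ → ℝ} {a b : ℝ} (h1 : Bd D g a) (h2 : Bd D (TT d g) b) :
    Bd D (TT w (TT (w + d) g)) (2 * a + b) := by
  intro t J
  have e : ∀ j, TT w (TT (w + d) g) (t + D * j) =
      g (t + D * j) + g ((t - 2 * w - d) + D * j) + TT d g ((t - w) + D * j) := by
    intro j
    unfold TT
    have e1 : t + D * j - (w + d) = t - w + D * j - d := by ring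
    have e2 : t + D * j - w = t - w + D * j := by ring
    have e3 : t - w + D * j - (w + d) = t - 2 * w - d + D * j := by ring
    rw [e1, e2, e3]
    ring
  rw [sum_congr rfl (fun j _ => e j), sum_add_distrib, sum_add_distrib]
  have a1 := h1 t J
  have a2 := h1 (t - 2 * w - d) J
  have a3 := h2 (t - w) J
  linarith

theorem bd_TT {D w : ℤ} {g : ℤ → ℝ} {a : ℝ} (h1 : Bd D g a) : Bd D (TT w g) (2 * a) := by
  intro t J
  have e : ∀ j, TT w g (t + D * j) = g (t + D * j) + g ((t - w) + D * j) := by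
    intro j
    unfold TT
    have e2 : t + D * j - w = t - w + D * j := by ring
    rw [e2]
  rw [sum_congr rfl (fun j _ => e j), sum_add_distrib]
  have a1 := h1 t J
  have a2 := h1 (t - w) J
  linarith

def cnt (w : ℕ → ℤ) (I : Finset ℕ) (t : ℤ) : ℝ :=
  ((I.powerset.filter (fun z => ∑ x ∈ z, w x = t)).card : ℝ)

theorem cnt_nonneg (w : ℕ → ℤ) (I : Finset ℕ) (t : ℤ) : 0 ≤ cnt w I t := Nat.cast_nonneg _

theorem cnt_insert (w : ℕ → ℤ) {a : ℕ} {I : Finset ℕ} (ha : a ∉ I) :
    cnt w (insert a I) = TT (w a) (cnt w I) := by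
  funext t
  unfold cnt TT
  rw [powerset_insert, filter_union, card_union_of_disjoint]
  · rw [filter_image, card_image_of_injOn]
    · push_cast
      congr 3
      ext z
      simp only [mem_filter, mem_powerset]
      constructor
      · rintro ⟨h1, h2⟩
        refine ⟨h1, ?_⟩
        rw [sum_insert (fun h => ha (h1 h))] at h2
        linarith
      · rintro ⟨h1, h2⟩
        refine ⟨h1, ?_⟩
        rw [sum_insert (fun h => ha (h1 h))]
        linarith
    · intro z hz z' hz' he
      simp only [coe_filter, mem_powerset, Set.mem_setOf_eq] at hz hz'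
      have h1 : a ∉ z := fun h => ha (hz.1 h)
      have h2 : a ∉ z' := fun h => ha (hz'.1 h)
      rw [← erase_insert h1, ← erase_insert h2, he]
  · rw [disjoint_left]
    intro z hz hz'
    rw [mem_filter, mem_powerset] at hz
    rw [mem_filter, mem_image] at hz'
    obtain ⟨⟨y, hy, rfl⟩, _⟩ := hz'
    exact ha (hz.1 (mem_insert_self a y))

theorem bd_cnt (w : ℕ → ℤ) {d : ℤ} (hd : d ≠ 0) (I : Finset ℕ) :
    Bd d (cnt w I) (2 ^ I.card) := by
  induction I using Finset.induction_on with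
  | empty =>
    intro t J
    have e : ∀ j, cnt w ∅ (t + d * j) = if t + d * j = 0 then 1 else 0 := by
      intro j
      unfold cnt
      by_cases h : t + d * j = 0
      · rw [if_pos h, h, powerset_empty, filter_singleton, if_pos sum_empty, card_singleton]
        norm_num
      · rw [if_neg h]
        simp only [powerset_empty, Nat.cast_eq_zero, card_eq_zero]
        rw [filter_eq_empty_iff]
        intro z hz
        rw [mem_singleton] at hz
        rw [hz, sum_empty]
        exact fun h' => h h'.symm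
    rw [sum_congr rfl (fun j _ => e j), card_empty, pow_zero]
    by_cases h : ∃ j ∈ J, t + d * j = 0
    · obtain ⟨j, hj, h0⟩ := h
      rw [sum_eq_single j]
      · rw [if_pos h0]
      · intro j' _ hne
        rw [if_neg]
        intro h1
        apply hne
        have : d * j' = d * j := by linarith
        exact mul_left_cancel₀ hd this
      · intro h; exact absurd hj h
    · rw [sum_eq_zero]
      · norm_num
      · intro j hj
        rw [if_neg]
        intro h0
        exact h ⟨j, hj, h0⟩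
  | insert a I ha ih =>
    rw [cnt_insert w ha, card_insert_of_notMem ha, pow_succ, mul_comm]
    exact bd_TT ih

def PE (w : ℕ → ℤ) (d : ℤ) : ℕ → Finset ℕ → Finset ℕ → Prop
  | 0, I, J => I = J
  | (m + 1), I, J => ∃ J' x x', PE w d m I J' ∧ x ∉ J' ∧ x' ∉ J' ∧ x ≠ x' ∧ w x' = w x + d ∧
      J = insert x (insert x' J')

theorem PE_trans {w : ℕ → ℤ} {d : ℤ} {m m' : ℕ} {I J K : Finset ℕ} (h1 : PE w d m I J)
    (h2 : PE w d m' J K) : PE w d (m + m') I K := by
  induction m' generalizing K with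
  | zero =>
    have : J = K := h2
    subst this
    exact h1
  | succ m' ih =>
    obtain ⟨J', x, x', a1, a2, a3, a4, a5, a6⟩ := h2
    exact ⟨J', x, x', ih a1, a2, a3, a4, a5, a6⟩

def RR (α : ℕ → ℝ) (m k : ℕ) : ℝ := ∑ j ∈ range (m + 1), (m.choose j : ℝ) * α (k + j)

theorem RR_succ (α : ℕ → ℝ) (m k : ℕ) : RR α (m + 1) k = RR α m k + RR α m (k + 1) := by
  unfold RR
  have := Finset.sum_choose_succ_mul (R := ℝ) (fun i _ => α (k + i)) m
  rw [this]
  congr 1
  apply sum_congr rfl
  intro i _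
  have e : k + (i + 1) = k + 1 + i := by ring
  rw [e]

theorem bd_PE {w : ℕ → ℤ} {d D : ℤ} {m : ℕ} {I J : Finset ℕ} {α : ℕ → ℝ}
    (h : PE w d m I J) (h1 : ∀ k, Bd D ((TT d)^[k] (cnt w I)) (2 ^ k * α k)) :
    ∀ k, Bd D ((TT d)^[k] (cnt w J)) (2 ^ (m + k) * RR α m k) := by
  induction m generalizing J with
  | zero =>
    have : I = J := h
    subst this
    intro k
    have e : RR α 0 k = α k := by
      unfold RR
      simp
    rw [e, zero_add]
    exact h1 k
  | succ m ih =>
    obtain ⟨J', x, x', a1, a2, a3, a4, a5, rfl⟩ := h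
    intro k
    have b1 := ih a1 k
    have b2 := ih a1 (k + 1)
    rw [cnt_insert w (by
      rw [mem_insert]
      rintro (h | h)
      · exact a4 h
      · exact a2 h), cnt_insert w a3, TT_iter, TT_iter, a5]
    rw [Function.iterate_succ_apply'] at b2
    have b3 := bd_pair (w := w x) b1 b2
    have e : (2 : ℝ) ^ (m + 1 + k) * RR α (m + 1) k =
        2 * (2 ^ (m + k) * RR α m k) + 2 ^ (m + (k + 1)) * RR α m (k + 1) := by
      rw [RR_succ]
      ring
    rw [e]
    exact b3

/-! ### Arithmetic progressions of binomial coefficients -/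

theorem ap_bound {g : ℤ → ℝ} {X V : ℝ} (hX : ∀ U : Finset ℤ, ∑ u ∈ U, g u ≤ X)
    (hV : ∀ U : Finset ℤ, ∑ u ∈ U, |g (u + 1) - g u| ≤ V) {q : ℕ} (hq : 1 ≤ q) (s : ℤ)
    (J : Finset ℤ) : ∑ j ∈ J, g (q * j - s) ≤ X / q + V := by
  have hq0 : (0 : ℝ) < q := by exact_mod_cast hq
  have step : ∀ (v : ℤ) (i : ℕ), g v ≤ g (v + i) + ∑ l ∈ range i, |g (v + l + 1) - g (v + l)| := by
    intro v i
    induction i with
    | zero => simp
    | succ i ih =>
      rw [sum_range_succ]
      have h1 := neg_abs_le (g (v + i + 1) - g (v + i))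
      have e : v + ((i + 1 : ℕ) : ℤ) = v + i + 1 := by push_cast; ring
      rw [e]
      linarith
  have step2 : ∀ v : ℤ, (q : ℝ) * g v ≤ ∑ i ∈ range q, g (v + i) +
      q * ∑ l ∈ range q, |g (v + l + 1) - g (v + l)| := by
    intro v
    have h1 : ∑ i ∈ range q, g v ≤ ∑ i ∈ range q, (g (v + i) +
        ∑ l ∈ range q, |g (v + l + 1) - g (v + l)|) := by
      apply sum_le_sum
      intro i hi
      refine (step v i).trans ?_
      apply add_le_add le_rfl
      apply sum_le_sum_of_subset_of_nonneg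
      · exact range_subset_range.2 (mem_range.1 hi).le
      · intro _ _ _
        exact abs_nonneg _
    rw [sum_add_distrib, sum_const, sum_const, card_range, nsmul_eq_mul, nsmul_eq_mul] at h1
    exact h1
  have blk : ∀ h : ℤ → ℝ, ∑ j ∈ J, ∑ i ∈ range q, h (q * j - s + i) =
      ∑ u ∈ (J ×ˢ range q).image (fun p => (q : ℤ) * p.1 - s + p.2), h u := by
    intro h
    rw [sum_image, sum_product]
    intro p hp p' hp' he
    have hp2 := mem_range.1 (mem_product.1 hp).2
    have hp2' := mem_range.1 (mem_product.1 hp').2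
    have he' : (q : ℤ) * p.1 + p.2 = q * p'.1 + p'.2 := by
      have : (q : ℤ) * p.1 - s + p.2 = q * p'.1 - s + p'.2 := he
      linarith
    have hq' : (q : ℤ) ≠ 0 := by positivity
    have e1 : (q : ℤ) * p.1 + p.2 = p.2 + q * p.1 := by ring
    have e2 : (q : ℤ) * p'.1 + p'.2 = p'.2 + q * p'.1 := by ring
    rw [e1, e2] at he'
    have f1 := congrArg (fun z => z / (q : ℤ)) he'
    have f2 := congrArg (fun z => z % (q : ℤ)) he'
    simp only [Int.add_mul_ediv_left _ _ hq', Int.add_mul_emod_self_left] at f1 f2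
    rw [Int.ediv_eq_zero_of_lt (by positivity) (by exact_mod_cast hp2),
      Int.ediv_eq_zero_of_lt (by positivity) (by exact_mod_cast hp2')] at f1
    rw [Int.emod_eq_of_lt (by positivity) (by exact_mod_cast hp2),
      Int.emod_eq_of_lt (by positivity) (by exact_mod_cast hp2')] at f2
    ext
    · linarith
    · exact_mod_cast f2
  have h1 : ∑ j ∈ J, (q : ℝ) * g (q * j - s) ≤ ∑ j ∈ J, (∑ i ∈ range q, g (q * j - s + i) +
      q * ∑ l ∈ range q, |g (q * j - s + l + 1) - g (q * j - s + l)|) :=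
    sum_le_sum (fun j _ => step2 _)
  rw [sum_add_distrib, ← mul_sum, ← mul_sum, blk, blk (fun u => |g (u + 1) - g u|)] at h1
  have h2 := hX ((J ×ˢ range q).image (fun p => (q : ℤ) * p.1 - s + p.2))
  have h3 := hV ((J ×ˢ range q).image (fun p => (q : ℤ) * p.1 - s + p.2))
  have h4 : (q : ℝ) * ∑ j ∈ J, g (q * j - s) ≤ X + q * V := by
    have := mul_le_mul_of_nonneg_left h3 hq0.le
    linarith
  have e : X / q + V = (X + q * V) / q := by field_simp
  rw [e, le_div_iff₀ hq0]
  linarith

theorem unimodal {g : ℤ → ℝ} (hg : ∀ u, 0 ≤ g u) {h : ℤ} (h1 : ∀ u, u < h → g u ≤ g (u + 1))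
    (h2 : ∀ u, h ≤ u → g (u + 1) ≤ g u) (U : Finset ℤ) :
    ∑ u ∈ U, |g (u + 1) - g u| ≤ 2 * g h := by
  rw [← sum_filter_add_sum_filter_not U (fun u => u < h)]
  have k1 : ∑ u ∈ U.filter (fun u => u < h), |g (u + 1) - g u| ≤ g h := by
    set M : ℕ := ∑ u ∈ U, (h - u).toNat with hM
    have hsub : U.filter (fun u => u < h) ⊆ (range M).image (fun i : ℕ => h - 1 - (i : ℤ)) := by
      intro u hu
      rw [mem_filter] at hu
      rw [mem_image]
      refine ⟨(h - 1 - u).toNat, ?_, by omega⟩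
      rw [mem_range]
      have : (h - u).toNat ≤ M := single_le_sum (f := fun u => (h - u).toNat)
        (fun _ _ => Nat.zero_le _) hu.1
      omega
    refine (sum_le_sum_of_subset_of_nonneg hsub (fun _ _ _ => abs_nonneg _)).trans ?_
    rw [sum_image (by intro a _ b _ hab; simpa using hab)]
    have e : ∀ i ∈ range M, |g (h - 1 - (i : ℤ) + 1) - g (h - 1 - (i : ℤ))| =
        g (h - (i : ℤ)) - g (h - ((i + 1 : ℕ) : ℤ)) := by
      intro i _
      rw [abs_of_nonneg (sub_nonneg.2 (h1 _ (by omega)))]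
      have e1 : h - 1 - (i : ℤ) + 1 = h - i := by ring
      have e2 : h - 1 - (i : ℤ) = h - ((i + 1 : ℕ) : ℤ) := by push_cast; ring
      rw [e1, e2]
    rw [sum_congr rfl e, sum_range_sub' (fun i : ℕ => g (h - (i : ℤ))) M]
    have := hg (h - (M : ℤ))
    simp only [Nat.cast_zero, sub_zero]
    linarith
  have k2 : ∑ u ∈ U.filter (fun u => ¬ u < h), |g (u + 1) - g u| ≤ g h := by
    set M : ℕ := ∑ u ∈ U, (u - h + 1).toNat with hM
    have hsub : U.filter (fun u => ¬ u < h) ⊆ (range M).image (fun i : ℕ => h + (i : ℤ)) := by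
      intro u hu
      rw [mem_filter] at hu
      rw [mem_image]
      refine ⟨(u - h).toNat, ?_, by omega⟩
      rw [mem_range]
      have : (u - h + 1).toNat ≤ M := single_le_sum (f := fun u => (u - h + 1).toNat)
        (fun _ _ => Nat.zero_le _) hu.1
      omega
    refine (sum_le_sum_of_subset_of_nonneg hsub (fun _ _ _ => abs_nonneg _)).trans ?_
    rw [sum_image (by intro a _ b _ hab; simpa using hab)]
    have e : ∀ i ∈ range M, |g (h + (i : ℤ) + 1) - g (h + (i : ℤ))| =
        g (h + (i : ℤ)) - g (h + ((i + 1 : ℕ) : ℤ)) := by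
      intro i _
      rw [abs_of_nonpos (sub_nonpos.2 (h2 _ (by omega)))]
      have e1 : h + (i : ℤ) + 1 = h + ((i + 1 : ℕ) : ℤ) := by push_cast; ring
      rw [e1]
      ring
    rw [sum_congr rfl e, sum_range_sub' (fun i : ℕ => g (h + (i : ℤ))) M]
    have := hg (h + (M : ℤ))
    simp only [Nat.cast_zero, add_zero]
    linarith
  linarith

def bn (k : ℕ) (u : ℤ) : ℝ := if 0 ≤ u then (k.choose u.toNat : ℝ) else 0

theorem bn_nonneg (k : ℕ) (u : ℤ) : 0 ≤ bn k u := by
  unfold bn
  split_ifs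
  · positivity
  · exact le_rfl

theorem bn_nat (k b : ℕ) : bn k (b : ℤ) = k.choose b := by
  unfold bn
  rw [if_pos (by positivity), Int.toNat_natCast]

theorem bn_sum (k : ℕ) (U : Finset ℤ) : ∑ u ∈ U, bn k u ≤ 2 ^ k := by
  classical
  have h1 : ∑ u ∈ U, bn k u ≤ ∑ u ∈ U ∪ (range (k + 1)).image (fun b : ℕ => (b : ℤ)), bn k u :=
    sum_le_sum_of_subset_of_nonneg subset_union_left (fun u _ _ => bn_nonneg k u)
  refine h1.trans ?_
  rw [← sum_subset (s₁ := (range (k + 1)).image (fun b : ℕ => (b : ℤ))) subset_union_right]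
  · rw [sum_image (by intro a _ b _ hab; simpa using hab)]
    rw [sum_congr rfl (fun b _ => bn_nat k b)]
    have := Nat.sum_range_choose k
    have h2 : ((∑ b ∈ range (k + 1), k.choose b : ℕ) : ℝ) = ((2 ^ k : ℕ) : ℝ) := by rw [this]
    push_cast at h2
    exact h2.le
  · intro u _ hu
    unfold bn
    split_ifs with h
    · rw [Nat.choose_eq_zero_of_lt]
      · simp
      · by_contra hc
        apply hu
        rw [mem_image]
        exact ⟨u.toNat, by rw [mem_range]; omega, by omega⟩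
    · rfl

theorem bn_var (k : ℕ) (U : Finset ℤ) :
    ∑ u ∈ U, |bn k (u + 1) - bn k u| ≤ 2 * (k.choose (k / 2) : ℝ) := by
  have := unimodal (g := bn k) (bn_nonneg k) (h := ((k / 2 : ℕ) : ℤ)) ?_ ?_ U
  · rw [bn_nat] at this
    exact this
  · intro u hu
    by_cases h : 0 ≤ u
    · obtain ⟨v, rfl⟩ := Int.eq_ofNat_of_zero_le h
      have e : (v : ℤ) + 1 = ((v + 1 : ℕ) : ℤ) := by push_cast; ring
      rw [e, bn_nat, bn_nat]
      have := Nat.choose_le_succ_of_lt_half_left (r := v) (n := k) (by exact_mod_cast hu)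
      exact_mod_cast this
    · have : bn k u = 0 := by unfold bn; rw [if_neg h]
      rw [this]
      exact bn_nonneg k _
  · intro u hu
    have h : 0 ≤ u := le_trans (by positivity) hu
    obtain ⟨v, rfl⟩ := Int.eq_ofNat_of_zero_le h
    have e : (v : ℤ) + 1 = ((v + 1 : ℕ) : ℤ) := by push_cast; ring
    rw [e, bn_nat, bn_nat]
    have hv : k / 2 ≤ v := by exact_mod_cast hu
    have h3 := Nat.choose_succ_right_eq k v
    have h4 : k.choose (v + 1) * (v + 1) ≤ k.choose v * (v + 1) := by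
      rw [h3]
      exact Nat.mul_le_mul_left _ (by omega)
    have h5 : k.choose (v + 1) ≤ k.choose v := Nat.le_of_mul_le_mul_right h4 (by omega)
    exact_mod_cast h5

theorem iter_eq (d : ℤ) (f : ℤ → ℝ) (k : ℕ) (t : ℤ) :
    (TT d)^[k] f t = ∑ b ∈ range (k + 1), (k.choose b : ℝ) * f (t - d * b) := by
  induction k generalizing t with
  | zero => simp
  | succ k ih =>
    rw [Function.iterate_succ_apply']
    have h1 : TT d ((TT d)^[k] f) t = (TT d)^[k] f t + (TT d)^[k] f (t - d) := rfl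
    rw [h1, ih, ih]
    have := Finset.sum_choose_succ_mul (R := ℝ) (fun i _ => f (t - d * i)) k
    rw [this]
    congr 1
    apply sum_congr rfl
    intro i _
    have e : t - d - d * (i : ℤ) = t - d * ((i + 1 : ℕ) : ℤ) := by push_cast; ring
    rw [e]

theorem bd_nonneg {d : ℤ} {f : ℤ → ℝ} {B : ℝ} (h : Bd d f B) : 0 ≤ B := by
  have := h 0 ∅
  simpa using this

theorem bd_scale {d : ℤ} {f : ℤ → ℝ} {B : ℝ} {q : ℕ} (hq : 1 ≤ q) (hf : ∀ t, 0 ≤ f t)
    (h : Bd d f B) (k : ℕ) :
    Bd (q * d) ((TT d)^[k] f) ((2 ^ k / q + 2 * (k.choose (k / 2) : ℝ)) * B) := by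
  classical
  intro t J
  set S : Finset ℤ := (J ×ˢ range (k + 1)).image (fun p => (q : ℤ) * p.1 - p.2) with hS
  have h1 : ∀ j ∈ J, (TT d)^[k] f (t + q * d * j) ≤
      ∑ s ∈ S, bn k (q * j - s) * f (t + d * s) := by
    intro j hj
    rw [iter_eq]
    have hsub : (range (k + 1)).image (fun b : ℕ => (q : ℤ) * j - b) ⊆ S := by
      intro s hs
      rw [mem_image] at hs
      obtain ⟨b, hb, rfl⟩ := hs
      rw [hS, mem_image]
      exact ⟨(j, b), mem_product.2 ⟨hj, hb⟩, rfl⟩
    refine le_trans (le_of_eq ?_) (sum_le_sum_of_subset_of_nonneg hsub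
      (fun s _ _ => mul_nonneg (bn_nonneg k _) (hf _)))
    rw [sum_image (by intro a _ b _ hab; simpa using hab)]
    apply sum_congr rfl
    intro b _
    have e1 : (q : ℤ) * j - (q * j - b) = (b : ℤ) := by ring
    have e2 : t + d * ((q : ℤ) * j - b) = t + q * d * j - d * b := by ring
    rw [e1, e2, bn_nat]
  refine (sum_le_sum h1).trans ?_
  rw [sum_comm]
  have h2 : ∀ s ∈ S, ∑ j ∈ J, bn k (q * j - s) * f (t + d * s) ≤
      (2 ^ k / q + 2 * (k.choose (k / 2) : ℝ)) * f (t + d * s) := by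
    intro s _
    rw [← sum_mul]
    exact mul_le_mul_of_nonneg_right (ap_bound (bn_sum k) (bn_var k) hq s J) (hf _)
  refine (sum_le_sum h2).trans ?_
  rw [← mul_sum]
  exact mul_le_mul_of_nonneg_left (h t S) (by positivity)

end Pool.Agent.X330.LN
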