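import Mathlib
import Pool.Agent.X330.LN.AC

set_option autoImplicit false

namespace Pool.Agent.X330.LN

open Finset

/-! ### The central coefficient -/

theorem central_even (j : ℕ) : (Nat.centralBinom j) ^ 2 * (2 * j + 1) ≤ 16 ^ j := by
  induction j with
  | zero => simp
  | succ j ih =>
    have h := Nat.succ_mul_centralBinom_succ j
    have h1 : ((j + 1) * Nat.centralBinom (j + 1)) ^ 2 * (2 * (j + 1) + 1) ≤
        (j + 1) ^ 2 * 16 ^ (j + 1) := by
      rw [h]
      have e : (2 * (2 * j + 1) * Nat.centralBinom j) ^ 2 * (2 * (j + 1) + 1) =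
          (Nat.centralBinom j ^ 2 * (2 * j + 1)) * (4 * (2 * j + 1) * (2 * j + 3)) := by ring
      rw [e, pow_succ 16 j]
      have h2 : 4 * (2 * j + 1) * (2 * j + 3) ≤ 16 * (j + 1) ^ 2 := by nlinarith
      calc (Nat.centralBinom j ^ 2 * (2 * j + 1)) * (4 * (2 * j + 1) * (2 * j + 3)) ≤
          16 ^ j * (16 * (j + 1) ^ 2) := Nat.mul_le_mul ih h2
        _ = (j + 1) ^ 2 * (16 ^ j * 16) := by ring
    have h3 : (j + 1) ^ 2 * (Nat.centralBinom (j + 1) ^ 2 * (2 * (j + 1) + 1)) ≤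
        (j + 1) ^ 2 * 16 ^ (j + 1) := by
      calc _ = ((j + 1) * Nat.centralBinom (j + 1)) ^ 2 * (2 * (j + 1) + 1) := by ring
        _ ≤ _ := h1
    exact Nat.le_of_mul_le_mul_left h3 (by positivity)

theorem central_bd (k : ℕ) : (k.choose (k / 2)) ^ 2 * (k + 1) ≤ 4 ^ k := by
  rcases Nat.even_or_odd' k with ⟨j, rfl | rfl⟩
  · have h := central_even j
    have e : 2 * j / 2 = j := by omega
    rw [e]
    have e2 : (4 : ℕ) ^ (2 * j) = 16 ^ j := by rw [pow_mul]; norm_num
    rw [e2]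
    exact h
  · have h := central_even (j + 1)
    have e : (2 * j + 1) / 2 = j := by omega
    rw [e]
    have e1 : Nat.centralBinom (j + 1) = 2 * (2 * j + 1).choose j := by
      rw [Nat.centralBinom_eq_two_mul_choose]
      have : 2 * (j + 1) = (2 * j + 1) + 1 := by ring
      rw [this, Nat.choose_succ_succ, Nat.choose_symm_half]
      ring
    rw [e1] at h
    have e2 : (16 : ℕ) ^ (j + 1) = 4 * 4 ^ (2 * j + 1) := by
      rw [pow_succ 4, pow_mul, pow_succ]; norm_num; ring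
    rw [e2] at h
    have h3 : 4 * ((2 * j + 1).choose j ^ 2 * (2 * (j + 1) + 1)) ≤ 4 * 4 ^ (2 * j + 1) := by
      calc _ = (2 * (2 * j + 1).choose j) ^ 2 * (2 * (j + 1) + 1) := by ring
        _ ≤ _ := h
    have h4 := Nat.le_of_mul_le_mul_left h3 (by norm_num)
    refine le_trans (Nat.mul_le_mul_left _ ?_) h4
    omega

noncomputable def gam (k : ℕ) : ℝ := (k.choose (k / 2) : ℝ) / 2 ^ k

theorem gam_nonneg (k : ℕ) : 0 ≤ gam k := by unfold gam; positivity

theorem gam_sq (k : ℕ) : gam k ^ 2 ≤ 1 / (k + 1) := by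
  unfold gam
  rw [div_pow, div_le_div_iff₀ (by positivity) (by positivity), one_mul]
  have h := central_bd k
  have h1 : (((k.choose (k / 2)) ^ 2 * (k + 1) : ℕ) : ℝ) ≤ ((4 ^ k : ℕ) : ℝ) := by
    exact_mod_cast h
  push_cast at h1
  refine h1.trans (le_of_eq ?_)
  rw [← pow_mul, mul_comm k 2, pow_mul]
  norm_num

theorem gam_sum (q : ℕ) (hq : 1 ≤ q) :
    ∑ j ∈ range (q ^ 2 + 1), ((q ^ 2).choose j : ℝ) * gam j ≤ 3 / 2 * 2 ^ (q ^ 2) / q := by
  set m := q ^ 2 with hm
  have hq0 : (0 : ℝ) < q := by exact_mod_cast hq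
  have h1 : (∑ j ∈ range (m + 1), (m.choose j : ℝ) * gam j) ^ 2 ≤
      (∑ j ∈ range (m + 1), (m.choose j : ℝ)) *
      ∑ j ∈ range (m + 1), (m.choose j : ℝ) * gam j ^ 2 := by
    apply Finset.sum_sq_le_sum_mul_sum_of_sq_eq_mul
    · intro i _; positivity
    · intro i _; positivity
    · intro i _; ring
  have h2 : ∑ j ∈ range (m + 1), (m.choose j : ℝ) = 2 ^ m := by
    have := Nat.sum_range_choose m
    have h2 : ((∑ b ∈ range (m + 1), m.choose b : ℕ) : ℝ) = ((2 ^ m : ℕ) : ℝ) := by rw [this]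
    push_cast at h2
    exact h2
  have h3 : ∑ j ∈ range (m + 1), (m.choose j : ℝ) * gam j ^ 2 ≤ 2 ^ (m + 1) / (m + 1) := by
    have e : ∀ j ∈ range (m + 1), (m.choose j : ℝ) * gam j ^ 2 ≤
        ((m + 1).choose (j + 1) : ℝ) / (m + 1) := by
      intro j _
      have a1 := gam_sq j
      have a2 := Nat.add_one_mul_choose_eq m j
      have a3 : ((m : ℝ) + 1) * m.choose j = (m + 1).choose (j + 1) * (j + 1) := by
        exact_mod_cast a2
      have a4 : ((m + 1).choose (j + 1) : ℝ) / (m + 1) = m.choose j * (1 / (j + 1)) := by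
        field_simp
        linarith
      rw [a4]
      exact mul_le_mul_of_nonneg_left a1 (by positivity)
    refine (sum_le_sum e).trans ?_
    rw [← sum_div]
    apply div_le_div_of_nonneg_right _ (by positivity)
    have := Nat.sum_range_choose (m + 1)
    have h2 : ((∑ b ∈ range (m + 1 + 1), (m + 1).choose b : ℕ) : ℝ) = ((2 ^ (m + 1) : ℕ) : ℝ) := by
      rw [this]
    push_cast at h2
    rw [← h2, sum_range_succ' _ (m + 1)]
    have : (0 : ℝ) ≤ ((m + 1).choose 0 : ℝ) := by positivity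
    linarith
  have h4 : (∑ j ∈ range (m + 1), (m.choose j : ℝ) * gam j) ^ 2 ≤ (3 / 2 * 2 ^ m / q) ^ 2 := by
    refine h1.trans ?_
    rw [h2]
    refine (mul_le_mul_of_nonneg_left h3 (by positivity)).trans ?_
    have hmq : (m : ℝ) = (q : ℝ) ^ 2 := by rw [hm]; push_cast; ring
    have e : (3 / 2 * 2 ^ m / (q : ℝ)) ^ 2 = 9 / 4 * (2 ^ m * 2 ^ m) / q ^ 2 := by
      field_simp
      ring
    rw [e, pow_succ, ← mul_div_assoc, hmq, div_le_div_iff₀ (by positivity) (by positivity)]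
    have : (0 : ℝ) < 2 ^ m * 2 ^ m := by positivity
    nlinarith [sq_nonneg (q : ℝ)]
  have h5 : (0 : ℝ) ≤ 3 / 2 * 2 ^ m / q := by positivity
  exact le_of_sq_le_sq h4 h5

/-- One scale. -/
theorem scale {w : ℕ → ℤ} {d : ℤ} {q : ℕ} (hq : 1 ≤ q) {I J : Finset ℕ}
    (h : PE w d (q ^ 2) I J) {B : ℝ} (hB : Bd d (cnt w I) B) :
    Bd (q * d) (cnt w J) (4 ^ (q ^ 2) * (4 / q) * B) := by
  have hB0 := bd_nonneg hB
  have hq0 : (0 : ℝ) < q := by exact_mod_cast hq
  have h1 := bd_PE (α := fun k => (1 / q + 2 * gam k) * B) (D := q * d) h (by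
    intro k
    have := bd_scale hq (cnt_nonneg w I) hB k
    have e : (2 : ℝ) ^ k * ((1 / q + 2 * gam k) * B) =
        (2 ^ k / q + 2 * (k.choose (k / 2) : ℝ)) * B := by
      unfold gam
      field_simp
    rw [e]
    exact this) 0
  intro t J'
  refine (h1 t J').trans ?_
  rw [add_zero]
  have h2 : RR (fun k => (1 / q + 2 * gam k) * B) (q ^ 2) 0 ≤ 4 * 2 ^ (q ^ 2) / q * B := by
    unfold RR
    have e : ∀ j ∈ range (q ^ 2 + 1), ((q ^ 2).choose j : ℝ) * ((1 / q + 2 * gam (0 + j)) * B) =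
        (((q ^ 2).choose j : ℝ) * (1 / q)) * B + 2 * B * (((q ^ 2).choose j : ℝ) * gam j) := by
      intro j _
      rw [zero_add]
      ring
    rw [sum_congr rfl e, sum_add_distrib, ← sum_mul, ← sum_mul, ← mul_sum]
    have h2 : ∑ j ∈ range (q ^ 2 + 1), ((q ^ 2).choose j : ℝ) = 2 ^ (q ^ 2) := by
      have := Nat.sum_range_choose (q ^ 2)
      have h2 : ((∑ b ∈ range (q ^ 2 + 1), (q ^ 2).choose b : ℕ) : ℝ) =
        ((2 ^ (q ^ 2) : ℕ) : ℝ) := by rw [this]
      push_cast at h2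
      exact h2
    rw [h2]
    have h3 := mul_le_mul_of_nonneg_left (gam_sum q hq) (by positivity : (0 : ℝ) ≤ 2 * B)
    refine (add_le_add le_rfl h3).trans (le_of_eq ?_)
    field_simp
    ring
  refine (mul_le_mul_of_nonneg_left h2 (by positivity)).trans (le_of_eq ?_)
  have e : (4 : ℝ) ^ (q ^ 2) = 2 ^ (q ^ 2) * 2 ^ (q ^ 2) := by
    rw [← mul_pow]; norm_num
  rw [e]
  ring

/-! ### Blocks of pairs -/

theorem block1 {w : ℕ → ℤ} {d : ℤ} {s P : ℕ} (hw : ∀ x, w (x + s) = w x + d)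
    {J : Finset ℕ} (hJ : ∀ x ∈ J, x < P ∨ P + 2 * s ≤ x) :
    ∀ b, b ≤ s → PE w d b J (J ∪ (Ico P (P + b) ∪ Ico (P + s) (P + s + b))) := by
  intro b
  induction b with
  | zero =>
    intro _
    show J = _
    simp
  | succ b ih =>
    intro hb
    refine ⟨_, P + b, P + b + s, ih (by omega), ?_, ?_, by omega, hw _, ?_⟩
    · rw [mem_union, mem_union, mem_Ico, mem_Ico]
      rintro (h | h | h)
      · have := hJ _ h
        omega
      · omega
      · omega
    · rw [mem_union, mem_union, mem_Ico, mem_Ico]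
      rintro (h | h | h)
      · have := hJ _ h
        omega
      · omega
      · omega
    · ext x
      simp only [mem_union, mem_Ico, mem_insert]
      constructor
      · rintro (h | h | h)
        · exact Or.inr (Or.inr (Or.inl h))
        · by_cases hx : x = P + b
          · exact Or.inl hx
          · exact Or.inr (Or.inr (Or.inr (Or.inl ⟨h.1, by omega⟩)))
        · by_cases hx : x = P + b + s
          · exact Or.inr (Or.inl hx)
          · exact Or.inr (Or.inr (Or.inr (Or.inr ⟨h.1, by omega⟩)))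
      · rintro (h | h | h | h | h)
        · exact Or.inr (Or.inl ⟨by omega, by omega⟩)
        · exact Or.inr (Or.inr ⟨by omega, by omega⟩)
        · exact Or.inl h
        · exact Or.inr (Or.inl ⟨by omega, by omega⟩)
        · exact Or.inr (Or.inr ⟨by omega, by omega⟩)

theorem block {w : ℕ → ℤ} {d : ℤ} {s P : ℕ} (hw : ∀ x, w (x + s) = w x + d)
    {J : Finset ℕ} (r : ℕ) (hJ : ∀ x ∈ J, x < P ∨ P + 2 * (r * s) ≤ x) :
    PE w d (r * s) J (J ∪ Ico P (P + 2 * (r * s))) := by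
  induction r with
  | zero =>
    rw [Nat.zero_mul]
    show J = _
    simp
  | succ r ih =>
    have e0 : (r + 1) * s = r * s + s := by ring
    rw [e0] at hJ ⊢
    have h1 := ih (by
      intro x hx
      have := hJ x hx
      omega)
    have h2 := block1 (J := J ∪ Ico P (P + 2 * (r * s))) (P := P + 2 * (r * s)) hw (by
      intro x hx
      rw [mem_union, mem_Ico] at hx
      rcases hx with hx | hx
      · have := hJ x hx
        omega
      · omega) s le_rfl
    have h3 := PE_trans h1 h2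
    have e : J ∪ Ico P (P + 2 * (r * s)) ∪ (Ico (P + 2 * (r * s)) (P + 2 * (r * s) + s) ∪
        Ico (P + 2 * (r * s) + s) (P + 2 * (r * s) + s + s)) =
        J ∪ Ico P (P + 2 * (r * s + s)) := by
      ext x
      simp only [mem_union, mem_Ico]
      constructor
      · rintro ((h | h) | h | h)
        · exact Or.inl h
        · exact Or.inr ⟨by omega, by omega⟩
        · exact Or.inr ⟨by omega, by omega⟩
        · exact Or.inr ⟨by omega, by omega⟩
      · rintro (h | h)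
        · exact Or.inl (Or.inl h)
        · by_cases c1 : x < P + 2 * (r * s)
          · exact Or.inl (Or.inr ⟨h.1, c1⟩)
          · by_cases c2 : x < P + 2 * (r * s) + s
            · exact Or.inr (Or.inl ⟨by omega, c2⟩)
            · exact Or.inr (Or.inr ⟨by omega, by omega⟩)
    rw [e] at h3
    exact h3

/-- Anticoncentration, first form. -/
theorem anti1 (n q : ℕ) (hq : 1 ≤ q) (hn : 6 * q ^ 2 ≤ n) (t : ℤ) :
    cnt (fun x => 2 * (x : ℤ) - (n - 1)) (range n) t ≤ 64 / (q : ℝ) ^ 3 * 2 ^ n := by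
  set w : ℕ → ℤ := fun x => 2 * (x : ℤ) - (n - 1) with hw
  have b0 := bd_cnt w (d := 2) (by norm_num) (Ico (6 * q ^ 2) n)
  have e2 : q ^ 2 * 1 = q ^ 2 := by ring
  have e3 : q * q = q ^ 2 := by ring
  have e4 : 1 * q ^ 2 = q ^ 2 := by ring
  have p1 := block (w := w) (d := 2) (s := 1) (P := 0) (J := Ico (6 * q ^ 2) n)
    (by intro x; simp only [hw]; push_cast; ring) (q ^ 2) (by
      intro x hx
      rw [mem_Ico] at hx
      omega)
  rw [e2] at p1
  have b1 := scale hq p1 b0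
  have p2 := block (w := w) (d := q * 2) (s := q) (P := 0 + 2 * q ^ 2)
    (J := Ico (6 * q ^ 2) n ∪ Ico 0 (0 + 2 * q ^ 2))
    (by intro x; simp only [hw]; push_cast; ring) q (by
      intro x hx
      rw [e3]
      rw [mem_union, mem_Ico, mem_Ico] at hx
      omega)
  rw [e3] at p2
  have b2 := scale hq p2 b1
  have p3 := block (w := w) (d := q * (q * 2)) (s := q ^ 2) (P := 0 + 2 * q ^ 2 + 2 * q ^ 2)
    (J := Ico (6 * q ^ 2) n ∪ Ico 0 (0 + 2 * q ^ 2) ∪
      Ico (0 + 2 * q ^ 2) (0 + 2 * q ^ 2 + 2 * q ^ 2))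
    (by intro x; simp only [hw]; push_cast; ring) 1 (by
      intro x hx
      rw [e4]
      rw [mem_union, mem_union, mem_Ico, mem_Ico, mem_Ico] at hx
      omega)
  rw [e4] at p3
  have b3 := scale hq p3 b2
  have eI : Ico (6 * q ^ 2) n ∪ Ico 0 (0 + 2 * q ^ 2) ∪
      Ico (0 + 2 * q ^ 2) (0 + 2 * q ^ 2 + 2 * q ^ 2) ∪
      Ico (0 + 2 * q ^ 2 + 2 * q ^ 2) (0 + 2 * q ^ 2 + 2 * q ^ 2 + 2 * q ^ 2) = range n := by
    ext x
    simp only [mem_union, mem_Ico, mem_range]
    generalize q ^ 2 = m at hn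
    omega
  rw [eI] at b3
  have b4 := b3 t {0}
  rw [sum_singleton, mul_zero, add_zero] at b4
  refine b4.trans (le_of_eq ?_)
  rw [Nat.card_Ico]
  have hq0 : (0 : ℝ) < q := by exact_mod_cast hq
  have e5 : (2 : ℝ) ^ n = 2 ^ (n - 6 * q ^ 2) * (4 ^ (q ^ 2) * 4 ^ (q ^ 2) * 4 ^ (q ^ 2)) := by
    have : (4 : ℝ) = 2 ^ 2 := by norm_num
    rw [this, ← pow_mul, ← pow_add, ← pow_add, ← pow_add]
    congr 1
    omega
  rw [e5]
  field_simp
  ring

end Pool.Agent.X330.LN
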