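import Mathlib

set_option autoImplicit false

namespace Pool.Agent.X330.LN

open Finset

/-- Exchange the positions `i` and `i + 1`. -/
def sw (i : ℕ) (S : Finset ℕ) : Finset ℕ := S.map (Equiv.swap i (i + 1)).toEmbedding

theorem mem_sw {i x : ℕ} {S : Finset ℕ} : x ∈ sw i S ↔ Equiv.swap i (i + 1) x ∈ S := by
  unfold sw
  rw [mem_map_equiv, Equiv.symm_swap]

theorem mem_sw_l {i : ℕ} {S : Finset ℕ} : i ∈ sw i S ↔ i + 1 ∈ S := by
  rw [mem_sw, Equiv.swap_apply_left]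

theorem mem_sw_r {i : ℕ} {S : Finset ℕ} : i + 1 ∈ sw i S ↔ i ∈ S := by
  rw [mem_sw, Equiv.swap_apply_right]

theorem mem_sw_ne {i x : ℕ} {S : Finset ℕ} (h1 : x ≠ i) (h2 : x ≠ i + 1) :
    x ∈ sw i S ↔ x ∈ S := by
  rw [mem_sw, Equiv.swap_apply_of_ne_of_ne h1 h2]

theorem sw_sw (i : ℕ) (S : Finset ℕ) : sw i (sw i S) = S := by
  ext x
  rw [mem_sw, mem_sw, Equiv.swap_apply_self]

theorem card_sw (i : ℕ) (S : Finset ℕ) : (sw i S).card = S.card := card_map _

theorem sw_comm {i j : ℕ} (h1 : i ≠ j) (h2 : i + 1 ≠ j) (h3 : j + 1 ≠ i) (S : Finset ℕ) :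
    sw i (sw j S) = sw j (sw i S) := by
  ext x
  by_cases hx1 : x = i
  · subst hx1
    rw [mem_sw_l, mem_sw_ne h2 (by omega), mem_sw_ne h1 (by omega), mem_sw_l]
  · by_cases hx2 : x = i + 1
    · subst hx2
      rw [mem_sw_r, mem_sw_ne h1 (by omega), mem_sw_ne h2 (by omega), mem_sw_r]
    · rw [mem_sw_ne hx1 hx2]
      by_cases hx3 : x = j
      · subst hx3
        rw [mem_sw_l, mem_sw_l, mem_sw_ne (by omega) (by omega)]
      · by_cases hx4 : x = j + 1
        · subst hx4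
          rw [mem_sw_r, mem_sw_r, mem_sw_ne (by omega) (by omega)]
        · rw [mem_sw_ne hx3 hx4, mem_sw_ne hx3 hx4, mem_sw_ne hx1 hx2]

theorem sum_sw {i : ℕ} {T : Finset ℕ} (h1 : i ∈ T) (h2 : i + 1 ∉ T) :
    (∑ x ∈ sw i T, (x : ℤ)) = (∑ x ∈ T, (x : ℤ)) + 1 := by
  unfold sw
  rw [sum_map, ← Finset.add_sum_erase T _ h1, ← Finset.add_sum_erase T (fun x => (x : ℤ)) h1]
  have h3 : ∑ x ∈ T.erase i, (((Equiv.swap i (i + 1)).toEmbedding x : ℕ) : ℤ) =
      ∑ x ∈ T.erase i, (x : ℤ) := by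
    apply sum_congr rfl
    intro x hx
    have hx1 : x ≠ i := (mem_erase.1 hx).1
    have hx2 : x ≠ i + 1 := fun h => h2 (h ▸ (mem_erase.1 hx).2)
    show ((Equiv.swap i (i + 1) x : ℕ) : ℤ) = x
    rw [Equiv.swap_apply_of_ne_of_ne hx1 hx2]
  rw [h3]
  have h4 : (((Equiv.swap i (i + 1)).toEmbedding i : ℕ) : ℤ) = (i : ℤ) + 1 := by
    show ((Equiv.swap i (i + 1) i : ℕ) : ℤ) = (i : ℤ) + 1
    rw [Equiv.swap_apply_left]
    push_cast
    rfl
  rw [h4]
  ring

theorem sw_subset {i N : ℕ} {T : Finset ℕ} (h : T ⊆ range N) (hi : i + 1 < N) :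
    sw i T ⊆ range N := by
  intro x hx
  rw [mem_range]
  by_cases hx1 : x = i
  · omega
  · by_cases hx2 : x = i + 1
    · omega
    · rw [mem_sw_ne hx1 hx2] at hx
      exact mem_range.1 (h hx)

/-- The raising operator. -/
def UU (N : ℕ) (f : Finset ℕ → ℚ) (S : Finset ℕ) : ℚ :=
  ∑ i ∈ range (N - 1), if (i ∉ S ∧ i + 1 ∈ S) then f (sw i S) else 0

def cc (N i : ℕ) : ℚ := ((i : ℚ) + 1) * ((N : ℚ) - 1 - i)

/-- The lowering operator. -/
def DD (N : ℕ) (f : Finset ℕ → ℚ) (S : Finset ℕ) : ℚ :=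
  ∑ i ∈ range (N - 1), if (i ∈ S ∧ i + 1 ∉ S) then cc N i * f (sw i S) else 0

def hh (N : ℕ) (S : Finset ℕ) : ℚ :=
  ∑ i ∈ range (N - 1), cc N i * ((if i + 1 ∈ S then 1 else 0) - (if i ∈ S then 1 else 0))

theorem comm (N : ℕ) (f : Finset ℕ → ℚ) (S : Finset ℕ) :
    UU N (DD N f) S - DD N (UU N f) S = hh N S * f S := by
  have e1 : UU N (DD N f) S = ∑ i ∈ range (N - 1), ∑ j ∈ range (N - 1),
      if ((i ∉ S ∧ i + 1 ∈ S) ∧ (j ∈ sw i S ∧ j + 1 ∉ sw i S)) then
        cc N j * f (sw j (sw i S)) else 0 := by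
    unfold UU DD
    apply sum_congr rfl
    intro i _
    by_cases h : (i ∉ S ∧ i + 1 ∈ S)
    · rw [if_pos h]
      apply sum_congr rfl
      intro j _
      by_cases h' : (j ∈ sw i S ∧ j + 1 ∉ sw i S)
      · rw [if_pos h', if_pos ⟨h, h'⟩]
      · rw [if_neg h', if_neg (fun h'' => h' h''.2)]
    · rw [if_neg h]
      symm
      apply sum_eq_zero
      intro j _
      rw [if_neg (fun h'' => h h''.1)]
  have e2 : DD N (UU N f) S = ∑ i ∈ range (N - 1), ∑ j ∈ range (N - 1),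
      if ((j ∈ S ∧ j + 1 ∉ S) ∧ (i ∉ sw j S ∧ i + 1 ∈ sw j S)) then
        cc N j * f (sw i (sw j S)) else 0 := by
    rw [sum_comm]
    unfold UU DD
    apply sum_congr rfl
    intro j _
    by_cases h : (j ∈ S ∧ j + 1 ∉ S)
    · rw [if_pos h, mul_sum]
      apply sum_congr rfl
      intro i _
      by_cases h' : (i ∉ sw j S ∧ i + 1 ∈ sw j S)
      · rw [if_pos h', if_pos ⟨h, h'⟩]
      · rw [if_neg h', if_neg (fun h'' => h' h''.2), mul_zero]
    · rw [if_neg h]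
      symm
      apply sum_eq_zero
      intro i _
      rw [if_neg (fun h'' => h h''.1)]
  rw [e1, e2, ← sum_sub_distrib]
  unfold hh
  rw [sum_mul]
  apply sum_congr rfl
  intro i hi
  rw [← sum_sub_distrib, sum_eq_single i]
  · simp only [mem_sw_l, mem_sw_r, sw_sw]
    by_cases h1 : i ∈ S <;> by_cases h2 : i + 1 ∈ S <;> simp [h1, h2]
  · intro j _ hji
    by_cases hc1 : j = i + 1
    · subst hc1
      rw [if_neg, if_neg, sub_zero]
      · rintro ⟨⟨a1, a2⟩, a3, a4⟩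
        rw [mem_sw_l] at a4
        exact a2 a4
      · rintro ⟨⟨a1, a2⟩, a3, a4⟩
        rw [mem_sw_r] at a3
        exact a1 a3
    · by_cases hc2 : i = j + 1
      · subst hc2
        rw [if_neg, if_neg, sub_zero]
        · rintro ⟨⟨a1, a2⟩, a3, a4⟩
          rw [mem_sw_r] at a3
          exact a3 a1
        · rintro ⟨⟨a1, a2⟩, a3, a4⟩
          rw [mem_sw_l] at a4
          exact a4 a2
      · have hji' : i ≠ j := fun h => hji h.symm
        have k1 : j ∈ sw i S ↔ j ∈ S := mem_sw_ne hji hc1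
        have k2 : j + 1 ∈ sw i S ↔ j + 1 ∈ S := mem_sw_ne (fun h => hc2 h.symm) (by omega)
        have k3 : i ∈ sw j S ↔ i ∈ S := mem_sw_ne hji' hc2
        have k4 : i + 1 ∈ sw j S ↔ i + 1 ∈ S := mem_sw_ne (fun h => hc1 h.symm) (by omega)
        simp only [k1, k2, k3, k4]
        rw [sw_comm (i := j) (j := i) hji (fun h => hc2 h.symm) (fun h => hc1 h.symm)]
        by_cases h : (i ∉ S ∧ i + 1 ∈ S) <;> by_cases h' : (j ∈ S ∧ j + 1 ∉ S)
        · rw [if_pos ⟨h, h'⟩, if_pos ⟨h', h⟩, sub_self]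
        · rw [if_neg (fun a => h' a.2), if_neg (fun a => h' a.1), sub_self]
        · rw [if_neg (fun a => h a.1), if_neg (fun a => h a.2), sub_self]
        · rw [if_neg (fun a => h a.1), if_neg (fun a => h a.2), sub_self]
  · intro h
    exact absurd hi h

theorem abel (N : ℕ) (g : ℕ → ℚ) (M : ℕ) :
    ∑ i ∈ range M, cc N i * (g (i + 1) - g i) =
      ∑ x ∈ range M, (2 * (x : ℚ) - (N - 1)) * g x + M * (N - M) * g M := by
  induction M with
  | zero => simp
  | succ M ih =>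
    rw [sum_range_succ, sum_range_succ, ih]
    unfold cc
    push_cast
    ring

theorem hh_eq (N : ℕ) (hN : 1 ≤ N) (S : Finset ℕ) (hS : S ⊆ range N) :
    hh N S = 2 * (∑ x ∈ S, (x : ℚ)) - (S.card : ℚ) * (N - 1) := by
  obtain ⟨M, rfl⟩ : ∃ M, N = M + 1 := ⟨N - 1, by omega⟩
  unfold hh
  rw [Nat.add_sub_cancel, abel (M + 1) (fun x => if x ∈ S then 1 else 0) M]
  have h1 : ∑ x ∈ range (M + 1), (2 * (x : ℚ) - ((M + 1 : ℕ) - 1)) * (if x ∈ S then 1 else 0) =
      2 * (∑ x ∈ S, (x : ℚ)) - (S.card : ℚ) * ((M + 1 : ℕ) - 1) := by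
    have h2 : ∀ x : ℕ, (2 * (x : ℚ) - ((M + 1 : ℕ) - 1)) * (if x ∈ S then 1 else 0) =
        if x ∈ S then (2 * (x : ℚ) - ((M + 1 : ℕ) - 1)) else 0 := by
      intro x; split_ifs <;> simp
    simp only [h2]
    rw [← sum_filter, filter_mem_eq_inter, inter_eq_right.2 hS, sum_sub_distrib, sum_const,
      nsmul_eq_mul, mul_sum]
  rw [← h1, sum_range_succ]
  push_cast
  ring

/-- `f` is supported on the `k`-subsets of `range N` with sum `r`. -/
def Sup (N k : ℕ) (r : ℤ) (f : Finset ℕ → ℚ) : Prop :=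
  ∀ S, f S ≠ 0 → S ⊆ range N ∧ S.card = k ∧ (∑ x ∈ S, (x : ℤ)) = r

theorem sup_U {N k : ℕ} {r : ℤ} {f : Finset ℕ → ℚ} (h : Sup N k r f) :
    Sup N k (r + 1) (UU N f) := by
  intro S hS
  obtain ⟨i, hi, hne⟩ := exists_ne_zero_of_sum_ne_zero hS
  rw [mem_range] at hi
  by_cases hc : (i ∉ S ∧ i + 1 ∈ S)
  · rw [if_pos hc] at hne
    obtain ⟨h1, h2, h3⟩ := h _ hne
    have h4 : i ∈ sw i S := mem_sw_l.2 hc.2
    have h5 : i + 1 ∉ sw i S := fun h => hc.1 (mem_sw_r.1 h)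
    have h6 := sum_sw h4 h5
    rw [sw_sw] at h6
    refine ⟨?_, ?_, ?_⟩
    · rw [← sw_sw i S]
      exact sw_subset h1 (by omega)
    · rw [← h2, card_sw]
    · rw [h6, h3]
  · rw [if_neg hc] at hne
    exact absurd rfl hne

theorem sup_D {N k : ℕ} {r : ℤ} {f : Finset ℕ → ℚ} (h : Sup N k r f) :
    Sup N k (r - 1) (DD N f) := by
  intro S hS
  obtain ⟨i, hi, hne⟩ := exists_ne_zero_of_sum_ne_zero hS
  rw [mem_range] at hi
  by_cases hc : (i ∈ S ∧ i + 1 ∉ S)
  · rw [if_pos hc] at hne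
    obtain ⟨h1, h2, h3⟩ := h _ (right_ne_zero_of_mul hne)
    have h6 := sum_sw hc.1 hc.2
    refine ⟨?_, ?_, ?_⟩
    · rw [← sw_sw i S]
      exact sw_subset h1 (by omega)
    · rw [← h2, card_sw]
    · omega
  · rw [if_neg hc] at hne
    exact absurd rfl hne

theorem sup_neg {N k : ℕ} {r : ℤ} {f : Finset ℕ → ℚ} (h : Sup N k r f) (hr : r < 0) :
    f = 0 := by
  funext S
  by_contra hne
  obtain ⟨-, -, h3⟩ := h S hne
  have : 0 ≤ ∑ x ∈ S, (x : ℤ) := sum_nonneg (fun x _ => Int.natCast_nonneg x)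
  omega

theorem sup_big {N k : ℕ} {r : ℤ} {f : Finset ℕ → ℚ} (h : Sup N k r f) (hr : (k * N : ℕ) < r) :
    f = 0 := by
  funext S
  by_contra hne
  obtain ⟨h1, h2, h3⟩ := h S hne
  have : ∑ x ∈ S, (x : ℤ) ≤ ∑ x ∈ S, (N : ℤ) := by
    apply sum_le_sum
    intro x hx
    have := mem_range.1 (h1 hx)
    omega
  rw [sum_const, h2, nsmul_eq_mul] at this
  push_cast at hr
  omega

theorem comm_sup {N k : ℕ} (hN : 1 ≤ N) {r : ℤ} {f : Finset ℕ → ℚ} (h : Sup N k r f) :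
    UU N (DD N f) = DD N (UU N f) + (2 * (r : ℚ) - k * (N - 1)) • f := by
  funext S
  have h1 := comm N f S
  rw [Pi.add_apply, Pi.smul_apply, smul_eq_mul]
  by_cases hS : f S = 0
  · rw [hS, mul_zero] at h1 ⊢
    linarith
  · obtain ⟨h2, h3, h4⟩ := h S hS
    rw [hh_eq N hN S h2, h3] at h1
    have h5 : (∑ x ∈ S, (x : ℚ)) = (r : ℚ) := by
      rw [← h4]
      push_cast
      rfl
    rw [h5] at h1
    linarith

theorem DD_smul (N : ℕ) (c : ℚ) (f : Finset ℕ → ℚ) : DD N (c • f) = c • DD N f := by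
  funext S
  unfold DD
  rw [Pi.smul_apply, smul_eq_mul, mul_sum]
  apply sum_congr rfl
  intro i _
  split_ifs
  · rw [Pi.smul_apply, smul_eq_mul]; ring
  · ring

theorem UU_smul (N : ℕ) (c : ℚ) (f : Finset ℕ → ℚ) : UU N (c • f) = c • UU N f := by
  funext S
  unfold UU
  rw [Pi.smul_apply, smul_eq_mul, mul_sum]
  apply sum_congr rfl
  intro i _
  split_ifs
  · rw [Pi.smul_apply, smul_eq_mul]
  · ring

theorem DD_zero (N : ℕ) : DD N 0 = 0 := by
  have := DD_smul N 0 0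
  rwa [zero_smul, zero_smul] at this

theorem UU_zero (N : ℕ) : UU N 0 = 0 := by
  have := UU_smul N 0 0
  rwa [zero_smul, zero_smul] at this

theorem sup_iter_D {N k : ℕ} {r : ℤ} {f : Finset ℕ → ℚ} (h : Sup N k r f) (t : ℕ) :
    Sup N k (r - t) ((DD N)^[t] f) := by
  induction t with
  | zero => simpa using h
  | succ t ih =>
    rw [Function.iterate_succ_apply']
    have := sup_D ih
    have e : r - ((t + 1 : ℕ) : ℤ) = r - t - 1 := by push_cast; ring
    rw [e]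
    exact this

theorem sup_iter_U {N k : ℕ} {r : ℤ} {f : Finset ℕ → ℚ} (h : Sup N k r f) (t : ℕ) :
    Sup N k (r + t) ((UU N)^[t] f) := by
  induction t with
  | zero => simpa using h
  | succ t ih =>
    rw [Function.iterate_succ_apply']
    have := sup_U ih
    have e : r + ((t + 1 : ℕ) : ℤ) = r + t + 1 := by push_cast; ring
    rw [e]
    exact this

theorem inj_U {N k : ℕ} (hN : 1 ≤ N) {r : ℤ} {f : Finset ℕ → ℚ} (h : Sup N k r f)
    (hr : 2 * r < k * ((N : ℤ) - 1)) (hU : UU N f = 0) : f = 0 := by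
  have key : ∀ t : ℕ, ∃ a : ℚ, a < 0 ∧ UU N ((DD N)^[t + 1] f) = a • (DD N)^[t] f := by
    intro t
    induction t with
    | zero =>
      refine ⟨2 * (r : ℚ) - k * (N - 1), ?_, ?_⟩
      · have : (2 * (r : ℚ)) < k * ((N : ℚ) - 1) := by exact_mod_cast hr
        linarith
      · show UU N (DD N f) = _
        rw [comm_sup hN h, hU, DD_zero, zero_add]
        rfl
    | succ t ih =>
      obtain ⟨a, ha, he⟩ := ih
      refine ⟨a + (2 * ((r - ((t + 1 : ℕ) : ℤ) : ℤ) : ℚ) - k * (N - 1)), ?_, ?_⟩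
      · have h1 : (2 * (r : ℚ)) < k * ((N : ℚ) - 1) := by exact_mod_cast hr
        push_cast
        have : (0 : ℚ) ≤ t := Nat.cast_nonneg t
        linarith
      · rw [Function.iterate_succ_apply' (DD N) (t + 1)]
        rw [comm_sup hN (sup_iter_D h (t + 1)), he, DD_smul, add_smul,
          ← Function.iterate_succ_apply' (DD N) t]
  have hz : ∀ t : ℕ, (DD N)^[t] f = 0 → f = 0 := by
    intro t
    induction t with
    | zero => exact id
    | succ t ih =>
      intro h0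
      apply ih
      obtain ⟨a, ha, he⟩ := key t
      rw [h0, UU_zero] at he
      exact (smul_eq_zero.1 he.symm).resolve_left ha.ne
  apply hz (r.toNat + 1)
  apply sup_neg (sup_iter_D h (r.toNat + 1))
  push_cast
  omega

theorem inj_D {N k : ℕ} (hN : 1 ≤ N) {r : ℤ} {f : Finset ℕ → ℚ} (h : Sup N k r f)
    (hr : k * ((N : ℤ) - 1) < 2 * r) (hD : DD N f = 0) : f = 0 := by
  have key : ∀ t : ℕ, ∃ a : ℚ, a < 0 ∧ DD N ((UU N)^[t + 1] f) = a • (UU N)^[t] f := by
    intro t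
    induction t with
    | zero =>
      refine ⟨-(2 * (r : ℚ) - k * (N - 1)), ?_, ?_⟩
      · have : k * ((N : ℚ) - 1) < (2 * (r : ℚ)) := by exact_mod_cast hr
        linarith
      · show DD N (UU N f) = _
        have := comm_sup hN h
        rw [hD, UU_zero] at this
        rw [neg_smul]
        exact (neg_eq_of_add_eq_zero_left this.symm).symm
    | succ t ih =>
      obtain ⟨a, ha, he⟩ := ih
      refine ⟨a - (2 * ((r + ((t + 1 : ℕ) : ℤ) : ℤ) : ℚ) - k * (N - 1)), ?_, ?_⟩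
      · have h1 : k * ((N : ℚ) - 1) < (2 * (r : ℚ)) := by exact_mod_cast hr
        push_cast
        have : (0 : ℚ) ≤ t := Nat.cast_nonneg t
        linarith
      · rw [Function.iterate_succ_apply' (UU N) (t + 1)]
        have h2 := comm_sup hN (sup_iter_U h (t + 1))
        rw [he, UU_smul, ← Function.iterate_succ_apply' (UU N) t] at h2
        rw [sub_smul, h2]
        abel
  have hz : ∀ t : ℕ, (UU N)^[t] f = 0 → f = 0 := by
    intro t
    induction t with
    | zero => exact id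
    | succ t ih =>
      intro h0
      apply ih
      obtain ⟨a, ha, he⟩ := key t
      rw [h0, DD_zero] at he
      exact (smul_eq_zero.1 he.symm).resolve_left ha.ne
  apply hz (k * N + r.natAbs + 1)
  apply sup_big (sup_iter_U h (k * N + r.natAbs + 1))
  generalize k * N = p
  omega

end Pool.Agent.X330.LN
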