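import Mathlib
import Pool.Agent.X330.LN.Sl2

set_option autoImplicit false

namespace Pool.Agent.X330.LN

open Finset

theorem UU_add (N : ℕ) (f g : Finset ℕ → ℚ) : UU N (f + g) = UU N f + UU N g := by
  funext S
  rw [Pi.add_apply]
  unfold UU
  rw [← sum_add_distrib]
  apply sum_congr rfl
  intro i _
  split_ifs
  · rfl
  · ring

theorem DD_add (N : ℕ) (f g : Finset ℕ → ℚ) : DD N (f + g) = DD N f + DD N g := by
  funext S
  rw [Pi.add_apply]
  unfold DD
  rw [← sum_add_distrib]
  apply sum_congr rfl
  intro i _
  split_ifs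
  · rw [Pi.add_apply]; ring
  · ring

theorem card_le_of_inj (T : (Finset ℕ → ℚ) →ₗ[ℚ] (Finset ℕ → ℚ)) (A B : Finset (Finset ℕ))
    (h1 : ∀ f, (∀ S, f S ≠ 0 → S ∈ A) → (∀ S, T f S ≠ 0 → S ∈ B))
    (h2 : ∀ f, (∀ S, f S ≠ 0 → S ∈ A) → T f = 0 → f = 0) : A.card ≤ B.card := by
  classical
  let ex : (A → ℚ) →ₗ[ℚ] (Finset ℕ → ℚ) :=
    { toFun := fun g S => if h : S ∈ A then g ⟨S, h⟩ else 0
      map_add' := by
        intro f g
        funext S
        by_cases h : S ∈ A
        · simp [h]
        · simp [h]
      map_smul' := by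
        intro c f
        funext S
        by_cases h : S ∈ A
        · simp [h]
        · simp [h] }
  let res : (Finset ℕ → ℚ) →ₗ[ℚ] (B → ℚ) :=
    { toFun := fun f S => f S
      map_add' := by
        intro f g
        rfl
      map_smul' := by
        intro c f
        rfl }
  have hinj : Function.Injective (res ∘ₗ T ∘ₗ ex) := by
    rw [← LinearMap.ker_eq_bot, LinearMap.ker_eq_bot']
    intro g hg
    have s1 : ∀ S, ex g S ≠ 0 → S ∈ A := by
      intro S hS
      by_contra hn
      exact hS (dif_neg hn)
    have s2 : T (ex g) = 0 := by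
      funext S
      by_contra hne
      have h3 := h1 _ s1 S hne
      exact hne (congrFun hg ⟨S, h3⟩)
    have s3 := h2 _ s1 s2
    funext ⟨S, hS⟩
    have s4 := congrFun s3 S
    have s5 : ex g S = g ⟨S, hS⟩ := dif_pos hS
    rw [← s5, s4]
    rfl
  have := LinearMap.finrank_le_finrank_of_injective hinj
  simpa using this

theorem hall {α : Type*} [DecidableEq α] (L : Finset α) (t : α → Finset α)
    (h : ∀ A ⊆ L, A.card ≤ (A.biUnion t).card) :
    ∃ g : α → α, (∀ S ∈ L, g S ∈ t S) ∧ (∀ S ∈ L, ∀ T ∈ L, g S = g T → S = T) := by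
  have h1 : ∀ s : Finset {S // S ∈ L}, s.card ≤ (s.biUnion (fun S => t S.1)).card := by
    intro s
    have h2 := h (s.map (Function.Embedding.subtype _)) (by
      intro x hx
      rw [mem_map] at hx
      obtain ⟨y, _, rfl⟩ := hx
      exact y.2)
    rw [card_map] at h2
    refine h2.trans (card_le_card ?_)
    intro x hx
    rw [mem_biUnion] at hx ⊢
    obtain ⟨a, ha, hx⟩ := hx
    rw [mem_map] at ha
    obtain ⟨y, hy, rfl⟩ := ha
    exact ⟨y, hy, hx⟩
  obtain ⟨f, hf1, hf2⟩ := (all_card_le_biUnion_card_iff_exists_injective _).1 h1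
  refine ⟨fun S => if hS : S ∈ L then f ⟨S, hS⟩ else S, ?_, ?_⟩
  · intro S hS
    simp only [dif_pos hS]
    exact hf2 ⟨S, hS⟩
  · intro S hS T hT he
    simp only [dif_pos hS, dif_pos hT] at he
    exact congrArg Subtype.val (hf1 he)

/-- The prefix order. -/
def le (S T : Finset ℕ) : Prop :=
  ∀ i, (T.filter (fun x => x < i)).card ≤ (S.filter (fun x => x < i)).card

theorem le_refl' (S : Finset ℕ) : le S S := fun _ => le_rfl

theorem le_trans' {S T V : Finset ℕ} (h1 : le S T) (h2 : le T V) : le S V :=
  fun i => (h2 i).trans (h1 i)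

theorem card_pre (S : Finset ℕ) (i : ℕ) :
    (S.filter (fun x => x < i + 1)).card =
      (S.filter (fun x => x < i)).card + (if i ∈ S then 1 else 0) := by
  by_cases h : i ∈ S
  · rw [if_pos h]
    have : S.filter (fun x => x < i + 1) = insert i (S.filter (fun x => x < i)) := by
      ext x
      simp only [mem_filter, mem_insert]
      constructor
      · rintro ⟨h1, h2⟩
        by_cases hx : x = i
        · exact Or.inl hx
        · exact Or.inr ⟨h1, by omega⟩
      · rintro (rfl | ⟨h1, h2⟩)
        · exact ⟨h, by omega⟩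
        · exact ⟨h1, by omega⟩
    rw [this, card_insert_of_notMem]
    simp
  · rw [if_neg h, add_zero]
    apply congrArg
    ext x
    simp only [mem_filter]
    constructor
    · rintro ⟨h1, h2⟩
      refine ⟨h1, ?_⟩
      have : x ≠ i := fun hx => h (hx ▸ h1)
      omega
    · rintro ⟨h1, h2⟩
      exact ⟨h1, by omega⟩

theorem le_anti {S T : Finset ℕ} (h1 : le S T) (h2 : le T S) : S = T := by
  ext i
  have a := card_pre S i
  have b := card_pre T i
  have c := h1 i
  have d := h2 i
  have e := h1 (i + 1)
  have f := h2 (i + 1)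
  by_cases hS : i ∈ S <;> by_cases hT : i ∈ T
  · simp [hS, hT]
  · rw [if_pos hS] at a; rw [if_neg hT] at b; omega
  · rw [if_neg hS] at a; rw [if_pos hT] at b; omega
  · simp [hS, hT]

theorem le_sw {i : ℕ} {S : Finset ℕ} (h2 : i + 1 ∉ S) : le S (sw i S) := by
  intro j
  apply card_le_card_of_injOn (Equiv.swap i (i + 1))
  · intro x hx
    simp only [coe_filter, Set.mem_setOf_eq] at hx ⊢
    obtain ⟨h3, h4⟩ := hx
    refine ⟨mem_sw.1 h3, ?_⟩
    by_cases hx1 : x = i
    · subst hx1
      exact absurd (mem_sw_l.1 h3) h2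
    · by_cases hx2 : x = i + 1
      · subst hx2
        rw [Equiv.swap_apply_right]
        omega
      · rw [Equiv.swap_apply_of_ne_of_ne hx1 hx2]
        exact h4
  · exact (Equiv.swap i (i + 1)).injective.injOn

theorem chains {α : Type*} (R : α → α → Prop) (hrefl : ∀ x, R x x)
    (htrans : ∀ x y z, R x y → R y z → R x z) (hanti : ∀ x y, R x y → R y x → x = y)
    (ρ : α → ℕ) (m : ℕ) (up dn : α → α)
    (hup : ∀ x, ρ x < m → ρ (up x) = ρ x + 1 ∧ R x (up x))
    (hupi : ∀ x y, ρ x < m → ρ x = ρ y → up x = up y → x = y)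
    (hdn : ∀ x, m < ρ x → ρ (dn x) + 1 = ρ x ∧ R (dn x) x)
    (hdni : ∀ x y, m < ρ x → ρ x = ρ y → dn x = dn y → x = y)
    (h0 : ∀ x y, ρ x = m → ρ y = m → x = y → R x y) (D : ℕ) :
    ∃ c : α → α, (∀ x, ρ x ≤ m + D → m ≤ ρ x + D → ρ (c x) = m) ∧
      (∀ x y, ρ x ≤ m + D → m ≤ ρ x + D → ρ y ≤ m + D → m ≤ ρ y + D → c x = c y →
        ρ x ≤ ρ y → R x y) := by
  induction D with
  | zero =>
    refine ⟨id, fun x h1 h2 => ?_, fun x y h1 h2 h3 h4 h5 h6 => ?_⟩
    · show ρ x = m
      omega
    · exact h0 x y (by omega) (by omega) h5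
  | succ D ih =>
    obtain ⟨c, hc1, hc2⟩ := ih
    classical
    refine ⟨fun x => if ρ x = m + D + 1 then c (dn x) else if ρ x + D + 1 = m then c (up x)
      else c x, fun x h1 h2 => ?_, fun x y h1 h2 h3 h4 h5 h6 => ?_⟩
    · by_cases e1 : ρ x = m + D + 1
      · simp only [if_pos e1]
        have := hdn x (by omega)
        exact hc1 _ (by omega) (by omega)
      · by_cases e2 : ρ x + D + 1 = m
        · simp only [if_neg e1, if_pos e2]
          have := hup x (by omega)
          exact hc1 _ (by omega) (by omega)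
        · simp only [if_neg e1, if_neg e2]
          exact hc1 _ (by omega) (by omega)
    · by_cases e1 : ρ x = m + D + 1
      · have e2 : ρ y = m + D + 1 := by omega
        simp only [if_pos e1, if_pos e2] at h5
        have a1 := hdn x (by omega)
        have a2 := hdn y (by omega)
        have b1 := hc2 _ _ (by omega) (by omega) (by omega) (by omega) h5 (by omega)
        have b2 := hc2 _ _ (by omega) (by omega) (by omega) (by omega) h5.symm (by omega)
        have b3 := hdni x y (by omega) (by omega) (hanti _ _ b1 b2)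
        rw [b3]
        exact hrefl y
      · by_cases e2 : ρ x + D + 1 = m
        · have a1 := hup x (by omega)
          by_cases e3 : ρ y = m + D + 1
          · simp only [if_neg e1, if_pos e2, if_pos e3] at h5
            have a2 := hdn y (by omega)
            have b1 := hc2 _ _ (by omega) (by omega) (by omega) (by omega) h5 (by omega)
            exact htrans _ _ _ a1.2 (htrans _ _ _ b1 a2.2)
          · by_cases e4 : ρ y + D + 1 = m
            · simp only [if_neg e1, if_pos e2, if_neg e3, if_pos e4] at h5
              have a2 := hup y (by omega)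
              have b1 := hc2 _ _ (by omega) (by omega) (by omega) (by omega) h5 (by omega)
              have b2 := hc2 _ _ (by omega) (by omega) (by omega) (by omega) h5.symm (by omega)
              have b3 := hupi x y (by omega) (by omega) (hanti _ _ b1 b2)
              rw [b3]
              exact hrefl y
            · simp only [if_neg e1, if_pos e2, if_neg e3, if_neg e4] at h5
              have b1 := hc2 _ _ (by omega) (by omega) (by omega) (by omega) h5 (by omega)
              exact htrans _ _ _ a1.2 b1
        · by_cases e3 : ρ y = m + D + 1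
          · simp only [if_neg e1, if_neg e2, if_pos e3] at h5
            have a2 := hdn y (by omega)
            have b1 := hc2 _ _ (by omega) (by omega) (by omega) (by omega) h5 (by omega)
            exact htrans _ _ _ b1 a2.2
          · by_cases e4 : ρ y + D + 1 = m
            · omega
            · simp only [if_neg e1, if_neg e2, if_neg e3, if_neg e4] at h5
              exact hc2 _ _ (by omega) (by omega) (by omega) (by omega) h5 h6

end Pool.Agent.X330.LN
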