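import Mathlib
import Pool.Agent.X330.LN.Match

set_option autoImplicit false

namespace Pool.Agent.X330.LN

open Finset

def ULin (N : ℕ) : (Finset ℕ → ℚ) →ₗ[ℚ] (Finset ℕ → ℚ) where
  toFun := UU N
  map_add' := UU_add N
  map_smul' := UU_smul N

def DLin (N : ℕ) : (Finset ℕ → ℚ) →ₗ[ℚ] (Finset ℕ → ℚ) where
  toFun := DD N
  map_add' := DD_add N
  map_smul' := DD_smul N

def tup (N : ℕ) (S : Finset ℕ) : Finset (Finset ℕ) :=
  ((range (N - 1)).filter (fun i => i ∈ S ∧ i + 1 ∉ S)).image (fun i => sw i S)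

def tdn (N : ℕ) (S : Finset ℕ) : Finset (Finset ℕ) :=
  ((range (N - 1)).filter (fun i => i ∉ S ∧ i + 1 ∈ S)).image (fun i => sw i S)

def Lv (N k r : ℕ) : Finset (Finset ℕ) :=
  (powersetCard k (range N)).filter (fun S => ∑ x ∈ S, x = r)

theorem mem_Lv {N k r : ℕ} {S : Finset ℕ} :
    S ∈ Lv N k r ↔ S ⊆ range N ∧ S.card = k ∧ ∑ x ∈ S, x = r := by
  unfold Lv
  rw [mem_filter, mem_powersetCard, and_assoc]

theorem sup_of {N k r : ℕ} {A : Finset (Finset ℕ)} (hA : A ⊆ Lv N k r) {f : Finset ℕ → ℚ}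
    (hf : ∀ S, f S ≠ 0 → S ∈ A) : Sup N k (r : ℤ) f := by
  intro S hS
  obtain ⟨h1, h2, h3⟩ := mem_Lv.1 (hA (hf S hS))
  refine ⟨h1, h2, ?_⟩
  rw [← h3]
  push_cast
  rfl

theorem hall_up {N k r : ℕ} (hN : 1 ≤ N) (hr : 2 * r < k * (N - 1)) (A : Finset (Finset ℕ))
    (hA : A ⊆ Lv N k r) : A.card ≤ (A.biUnion (tup N)).card := by
  apply card_le_of_inj (ULin N)
  · intro f hf S hS
    replace hS : UU N f S ≠ 0 := hS
    unfold UU at hS
    obtain ⟨i, hi, hne⟩ := exists_ne_zero_of_sum_ne_zero hS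
    by_cases hc : (i ∉ S ∧ i + 1 ∈ S)
    · rw [if_pos hc] at hne
      rw [mem_biUnion]
      refine ⟨sw i S, hf _ hne, ?_⟩
      unfold tup
      rw [mem_image]
      refine ⟨i, ?_, sw_sw i S⟩
      rw [mem_filter]
      exact ⟨hi, mem_sw_l.2 hc.2, fun h => hc.1 (mem_sw_r.1 h)⟩
    · rw [if_neg hc] at hne
      exact absurd rfl hne
  · intro f hf h0
    refine inj_U hN (sup_of hA hf) ?_ h0
    zify [hN] at hr
    exact hr

theorem hall_dn {N k r : ℕ} (hN : 1 ≤ N) (hr : k * (N - 1) < 2 * r) (A : Finset (Finset ℕ))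
    (hA : A ⊆ Lv N k r) : A.card ≤ (A.biUnion (tdn N)).card := by
  apply card_le_of_inj (DLin N)
  · intro f hf S hS
    replace hS : DD N f S ≠ 0 := hS
    unfold DD at hS
    obtain ⟨i, hi, hne⟩ := exists_ne_zero_of_sum_ne_zero hS
    by_cases hc : (i ∈ S ∧ i + 1 ∉ S)
    · rw [if_pos hc] at hne
      rw [mem_biUnion]
      refine ⟨sw i S, hf _ (right_ne_zero_of_mul hne), ?_⟩
      unfold tdn
      rw [mem_image]
      refine ⟨i, ?_, sw_sw i S⟩
      rw [mem_filter]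
      exact ⟨hi, fun h => hc.2 (mem_sw_l.1 h), mem_sw_r.2 hc.1⟩
    · rw [if_neg hc] at hne
      exact absurd rfl hne
  · intro f hf h0
    refine inj_D hN (sup_of hA hf) ?_ h0
    zify [hN] at hr
    exact hr

theorem sum_sw_nat {i : ℕ} {T : Finset ℕ} (h1 : i ∈ T) (h2 : i + 1 ∉ T) :
    (∑ x ∈ sw i T, x) = (∑ x ∈ T, x) + 1 := by
  have h3 := sum_sw h1 h2
  have h4 : ((∑ x ∈ sw i T, x : ℕ) : ℤ) = (((∑ x ∈ T, x) + 1 : ℕ) : ℤ) := by
    push_cast
    exact h3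
  exact_mod_cast h4

theorem tup_prop {N : ℕ} {S T : Finset ℕ} (hS : S ⊆ range N) (h : T ∈ tup N S) :
    T ⊆ range N ∧ T.card = S.card ∧ ∑ x ∈ T, x = ∑ x ∈ S, x + 1 ∧ le S T := by
  unfold tup at h
  rw [mem_image] at h
  obtain ⟨i, hi, rfl⟩ := h
  rw [mem_filter, mem_range] at hi
  exact ⟨sw_subset hS (by omega), card_sw i S, sum_sw_nat hi.2.1 hi.2.2, le_sw hi.2.2⟩

theorem tdn_prop {N : ℕ} {S T : Finset ℕ} (hS : S ⊆ range N) (h : T ∈ tdn N S) :
    T ⊆ range N ∧ T.card = S.card ∧ ∑ x ∈ T, x + 1 = ∑ x ∈ S, x ∧ le T S := by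
  unfold tdn at h
  rw [mem_image] at h
  obtain ⟨i, hi, rfl⟩ := h
  rw [mem_filter, mem_range] at hi
  have h1 : i ∈ sw i S := mem_sw_l.2 hi.2.2
  have h2 : i + 1 ∉ sw i S := fun h => hi.2.1 (mem_sw_r.1 h)
  refine ⟨sw_subset hS (by omega), card_sw i S, ?_, ?_⟩
  · have := sum_sw_nat h1 h2
    rw [sw_sw] at this
    exact this.symm
  · have := le_sw h2
    rwa [sw_sw] at this

theorem chain_k (N k : ℕ) (hN : 1 ≤ N) :
    ∃ c : Finset ℕ → Finset ℕ,
      (∀ S, S ⊆ range N → S.card = k →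
        c S ⊆ range N ∧ (c S).card = k ∧ ∑ x ∈ c S, x = k * (N - 1) / 2) ∧
      (∀ S T, S ⊆ range N → S.card = k → T ⊆ range N → T.card = k → c S = c T →
        ∑ x ∈ S, x ≤ ∑ x ∈ T, x → le S T) := by
  classical
  have hg : ∀ r : ℕ, ∃ g : Finset ℕ → Finset ℕ, 2 * r < k * (N - 1) →
      (∀ S ∈ Lv N k r, g S ∈ tup N S) ∧ (∀ S ∈ Lv N k r, ∀ T ∈ Lv N k r, g S = g T → S = T) := by
    intro r
    by_cases hr : 2 * r < k * (N - 1)
    · obtain ⟨g, h1, h2⟩ := hall (Lv N k r) (tup N) (hall_up hN hr)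
      exact ⟨g, fun _ => ⟨h1, h2⟩⟩
    · exact ⟨id, fun h => absurd h hr⟩
  have hg' : ∀ r : ℕ, ∃ g : Finset ℕ → Finset ℕ, k * (N - 1) < 2 * r →
      (∀ S ∈ Lv N k r, g S ∈ tdn N S) ∧ (∀ S ∈ Lv N k r, ∀ T ∈ Lv N k r, g S = g T → S = T) := by
    intro r
    by_cases hr : k * (N - 1) < 2 * r
    · obtain ⟨g, h1, h2⟩ := hall (Lv N k r) (tdn N) (hall_dn hN hr)
      exact ⟨g, fun _ => ⟨h1, h2⟩⟩
    · exact ⟨id, fun h => absurd h hr⟩
  choose g hg using hg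
  choose g' hg' using hg'
  set m := k * (N - 1) / 2 with hm
  have hm1 : ∀ r, r < m → 2 * r < k * (N - 1) := by intro r hr; omega
  have hm2 : ∀ r, m < r → k * (N - 1) < 2 * r := by intro r hr; omega
  have memL : ∀ S : {S : Finset ℕ // S ⊆ range N ∧ S.card = k},
      S.1 ∈ Lv N k (∑ x ∈ S.1, x) := fun S => mem_Lv.2 ⟨S.2.1, S.2.2, rfl⟩
  let ρ : {S : Finset ℕ // S ⊆ range N ∧ S.card = k} → ℕ := fun S => ∑ x ∈ S.1, x
  let up : {S : Finset ℕ // S ⊆ range N ∧ S.card = k} →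
      {S : Finset ℕ // S ⊆ range N ∧ S.card = k} := fun S =>
    if h : ρ S < m then ⟨g (ρ S) S.1, by
      have h1 := (hg (ρ S) (hm1 _ h)).1 S.1 (memL S)
      have h2 := tup_prop S.2.1 h1
      exact ⟨h2.1, h2.2.1.trans S.2.2⟩⟩ else S
  let dn : {S : Finset ℕ // S ⊆ range N ∧ S.card = k} →
      {S : Finset ℕ // S ⊆ range N ∧ S.card = k} := fun S =>
    if h : m < ρ S then ⟨g' (ρ S) S.1, by
      have h1 := (hg' (ρ S) (hm2 _ h)).1 S.1 (memL S)
      have h2 := tdn_prop S.2.1 h1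
      exact ⟨h2.1, h2.2.1.trans S.2.2⟩⟩ else S
  have hup1 : ∀ S, ρ S < m → (up S).1 = g (ρ S) S.1 := by
    intro S hS
    show (dite _ _ _ : {S : Finset ℕ // S ⊆ range N ∧ S.card = k}).1 = _
    rw [dif_pos hS]
  have hdn1 : ∀ S, m < ρ S → (dn S).1 = g' (ρ S) S.1 := by
    intro S hS
    show (dite _ _ _ : {S : Finset ℕ // S ⊆ range N ∧ S.card = k}).1 = _
    rw [dif_pos hS]
  obtain ⟨c, hc1, hc2⟩ := chains (fun S T : {S : Finset ℕ // S ⊆ range N ∧ S.card = k} =>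
      le S.1 T.1) (fun S => le_refl' _) (fun S T V => le_trans')
    (fun S T h1 h2 => Subtype.ext (le_anti h1 h2)) ρ m up dn
    (by
      intro S hS
      have h1 := (hg (ρ S) (hm1 _ hS)).1 S.1 (memL S)
      have h2 := tup_prop S.2.1 h1
      rw [← hup1 S hS] at h2
      exact h2.2.2)
    (by
      intro S T hS hST he
      have e1 := congrArg Subtype.val he
      rw [hup1 S hS, hup1 T (by omega), ← hST] at e1
      apply Subtype.ext
      refine (hg (ρ S) (hm1 _ hS)).2 S.1 (memL S) T.1 ?_ e1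
      rw [hST]
      exact memL T)
    (by
      intro S hS
      have h1 := (hg' (ρ S) (hm2 _ hS)).1 S.1 (memL S)
      have h2 := tdn_prop S.2.1 h1
      rw [← hdn1 S hS] at h2
      exact h2.2.2)
    (by
      intro S T hS hST he
      have e1 := congrArg Subtype.val he
      rw [hdn1 S hS, hdn1 T (by omega), ← hST] at e1
      apply Subtype.ext
      refine (hg' (ρ S) (hm2 _ hS)).2 S.1 (memL S) T.1 ?_ e1
      rw [hST]
      exact memL T)
    (by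
      intro S T _ _ h
      rw [h]
      exact le_refl' _) (m + k * N)
  have hbd : ∀ S : {S : Finset ℕ // S ⊆ range N ∧ S.card = k}, ρ S ≤ k * N := by
    intro S
    have h1 : ∑ x ∈ S.1, x ≤ ∑ x ∈ S.1, N := by
      apply sum_le_sum
      intro x hx
      exact (mem_range.1 (S.2.1 hx)).le
    rw [sum_const, S.2.2, smul_eq_mul] at h1
    exact h1
  refine ⟨fun S => if h : S ⊆ range N ∧ S.card = k then (c ⟨S, h⟩).1 else S, ?_, ?_⟩
  · intro S h1 h2
    have h3 : S ⊆ range N ∧ S.card = k := ⟨h1, h2⟩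
    simp only [dif_pos h3]
    have h4 := hbd ⟨S, h3⟩
    exact ⟨(c ⟨S, h3⟩).2.1, (c ⟨S, h3⟩).2.2, hc1 ⟨S, h3⟩ (by omega) (by omega)⟩
  · intro S T h1 h2 h3 h4 h5 h6
    have h7 : S ⊆ range N ∧ S.card = k := ⟨h1, h2⟩
    have h8 : T ⊆ range N ∧ T.card = k := ⟨h3, h4⟩
    simp only [dif_pos h7, dif_pos h8] at h5
    have h9 := hbd ⟨S, h7⟩
    have h10 := hbd ⟨T, h8⟩
    exact hc2 ⟨S, h7⟩ ⟨T, h8⟩ (by omega) (by omega) (by omega) (by omega) (Subtype.ext h5) h6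

theorem chain (N : ℕ) (hN : 1 ≤ N) :
    ∃ c : Finset ℕ → Finset ℕ,
      (∀ S, S ⊆ range N →
        c S ⊆ range N ∧ (c S).card = S.card ∧ ∑ x ∈ c S, x = S.card * (N - 1) / 2) ∧
      (∀ S T, S ⊆ range N → T ⊆ range N → c S = c T → ∑ x ∈ S, x ≤ ∑ x ∈ T, x →
        S.card = T.card ∧ le S T) := by
  choose c hc1 hc2 using fun k => chain_k N k hN
  refine ⟨fun S => c S.card S, fun S hS => hc1 S.card S hS rfl, fun S T hS hT h5 h6 => ?_⟩
  have e1 := (hc1 S.card S hS rfl).2.1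
  have e2 := (hc1 T.card T hT rfl).2.1
  have e3 : S.card = T.card := by
    rw [← e1, ← e2]
    exact congrArg _ h5
  refine ⟨e3, hc2 S.card S T hS rfl hT e3.symm ?_ h6⟩
  have : c T.card T = c S.card T := by rw [e3]
  exact h5.trans this

end Pool.Agent.X330.LN
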