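import Mathlib
import Pool.Agent.X330.LN.Chain

set_option autoImplicit false

namespace Pool.Agent.X330.LN

open Finset

theorem enc_aux {Λ P : Type*} (x y : Λ → P) (ρ : P → ℕ) (c : P → P) (Le : Λ → Λ → Prop)
    (G : P → P → Prop)
    (cx : ∀ a b, c (x a) = c (x b) → ρ (x a) ≤ ρ (x b) → G (x a) (x b))
    (cy : ∀ a b, c (y a) = c (y b) → ρ (y a) ≤ ρ (y b) → G (y a) (y b))
    (ord : ∀ a b, G (x a) (x b) → G (y a) (y b) → Le a b)
    (inj : ∀ a b, x a = x b → y a = y b → a = b)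
    (A B : Set Λ) (hA : ∀ a ∈ A, ∀ b ∈ A, Le a b → a = b) (hB : ∀ a ∈ B, ∀ b ∈ B, Le a b → a = b)
    (H1 : ∀ b ∈ B, ∃ a ∈ A, x a = x b ∧ c (y a) = c (y b))
    (H2 : ∀ a ∈ A, ∃ b ∈ B, y b = y a ∧ c (x b) = c (x a)) (d : ℕ) :
    ∀ a ∈ A, ∀ b ∈ B, ρ (x a) ≤ d → x a = x b → c (y a) = c (y b) → ρ (y b) ≤ ρ (y a) →
      a = b := by
  induction d using Nat.strong_induction_on with
  | _ d ih =>
    intro a ha b hb hd hx hy hr
    obtain ⟨b', hb', h1, h2⟩ := H2 a ha
    by_cases h3 : ρ (x a) ≤ ρ (x b')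
    · have g1 := cx a b' h2.symm h3
      have g2 := cy b a hy.symm hr
      rw [hx] at g1
      rw [← h1] at g2
      have h4 := hB b hb b' hb' (ord _ _ g1 g2)
      apply inj a b hx
      rw [h4, h1]
    · exfalso
      have g1 := cx b' a h2 (by omega)
      obtain ⟨a', ha', h5, h6⟩ := H1 b' hb'
      by_cases h7 : ρ (y a') ≤ ρ (y a)
      · rw [h1] at h6
        have g2 := cy a' a h6 h7
        rw [← h5] at g1
        have h8 := hA a' ha' a ha (ord _ _ g1 g2)
        rw [h8] at h5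
        rw [h5] at h3
        exact h3 le_rfl
      · have h9 := ih (ρ (x a')) (by rw [h5]; omega) a' ha' b' hb' le_rfl h5 h6
          (by rw [h1]; omega)
        rw [h9, h1] at h7
        exact h7 le_rfl

theorem enc {Λ P : Type*} (x y : Λ → P) (ρ : P → ℕ) (c : P → P) (Le : Λ → Λ → Prop)
    (G : P → P → Prop)
    (cx : ∀ a b, c (x a) = c (x b) → ρ (x a) ≤ ρ (x b) → G (x a) (x b))
    (cy : ∀ a b, c (y a) = c (y b) → ρ (y a) ≤ ρ (y b) → G (y a) (y b))
    (ord : ∀ a b, G (x a) (x b) → G (y a) (y b) → Le a b)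
    (inj : ∀ a b, x a = x b → y a = y b → a = b)
    (A B : Set Λ) (hA : ∀ a ∈ A, ∀ b ∈ A, Le a b → a = b) (hB : ∀ a ∈ B, ∀ b ∈ B, Le a b → a = b)
    (H1 : ∀ b ∈ B, ∃ a ∈ A, x a = x b ∧ c (y a) = c (y b))
    (H1' : ∀ a ∈ A, ∃ b ∈ B, x b = x a ∧ c (y b) = c (y a))
    (H2 : ∀ a ∈ A, ∃ b ∈ B, y b = y a ∧ c (x b) = c (x a))
    (H2' : ∀ b ∈ B, ∃ a ∈ A, y a = y b ∧ c (x a) = c (x b)) : A ⊆ B := by
  intro a ha
  obtain ⟨b, hb, h1, h2⟩ := H1' a ha
  by_cases h : ρ (y b) ≤ ρ (y a)
  · have := enc_aux x y ρ c Le G cx cy ord inj A B hA hB H1 H2 _ a ha b hb le_rfl h1.symm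
      h2.symm h
    rw [this]
    exact hb
  · have := enc_aux x y ρ c Le G cx cy ord inj B A hB hA H1' H2' _ b hb a ha le_rfl h1 h2
      (by omega)
    rw [← this]
    exact hb

/-- The box lattice: partitions with at most `n` parts, all at most `n`. -/
abbrev L (n : ℕ) : Type := {f : Fin n → Fin (n + 1) // Antitone f}

/-- The strictly decreasing sequence of a partition. -/
def sq {n : ℕ} (f : L n) (i : Fin n) : ℕ := (f.1 i : ℕ) + (n - 1 - i)

theorem sq_lt {n : ℕ} (f : L n) {i j : Fin n} (h : i < j) : sq f j < sq f i := by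
  unfold sq
  have h1 : ((f.1 j : Fin (n + 1)) : ℕ) ≤ (f.1 i : ℕ) := f.2 h.le
  have h2 : (i : ℕ) < j := h
  have h3 := j.2
  omega

theorem sq_inj {n : ℕ} (f : L n) : Function.Injective (sq f) := by
  intro i j h
  rcases lt_trichotomy i j with h1 | h1 | h1
  · have := sq_lt f h1; omega
  · exact h1
  · have := sq_lt f h1; omega

def wd {n : ℕ} (f : L n) : Finset ℕ := univ.image (sq f)

theorem wd_card {n : ℕ} (f : L n) : (wd f).card = n := by
  unfold wd
  rw [card_image_of_injective _ (sq_inj f), card_univ, Fintype.card_fin]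

theorem wd_sub {n : ℕ} (f : L n) : wd f ⊆ range (2 * n) := by
  intro x hx
  unfold wd at hx
  rw [mem_image] at hx
  obtain ⟨i, -, rfl⟩ := hx
  rw [mem_range]
  unfold sq
  have h1 := (f.1 i).2
  have h2 := i.2
  omega

theorem wd_pre {n : ℕ} (f : L n) (t : ℕ) :
    ((wd f).filter (fun x => x < t)).card = (univ.filter (fun i => sq f i < t)).card := by
  unfold wd
  rw [filter_image, card_image_of_injective _ (sq_inj f)]

theorem wd_le {n : ℕ} {f g : L n} (h : le (wd f) (wd g)) : f ≤ g := by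
  intro j
  by_contra hc
  have hc' : ((g.1 j : Fin (n + 1)) : ℕ) < (f.1 j : ℕ) := not_le.1 hc
  have h1 := h (sq g j + 1)
  rw [wd_pre, wd_pre] at h1
  have h2 : (univ.filter (fun i => j ≤ i)).card ≤
      (univ.filter (fun i => sq g i < sq g j + 1)).card := by
    apply card_le_card
    intro i hi
    rw [mem_filter] at hi ⊢
    refine ⟨hi.1, ?_⟩
    rcases eq_or_lt_of_le hi.2 with h3 | h3
    · rw [h3]; omega
    · have := sq_lt g h3
      omega
  have h4 : (univ.filter (fun i => sq f i < sq g j + 1)).card <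
      (univ.filter (fun i => j ≤ i)).card := by
    apply card_lt_card
    rw [ssubset_iff_of_subset]
    · refine ⟨j, by simp, ?_⟩
      rw [mem_filter]
      rintro ⟨-, h5⟩
      unfold sq at h5
      omega
    · intro i hi
      rw [mem_filter] at hi ⊢
      refine ⟨hi.1, ?_⟩
      by_contra h6
      have h7 := sq_lt f (not_le.1 h6)
      have h8 : sq g j < sq f j := by unfold sq; omega
      omega
  omega

/-- The two halves of a word. -/
def xx {n : ℕ} (f : L n) : Finset ℕ := (wd f).filter (fun x => x < n)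

def yy {n : ℕ} (f : L n) : Finset ℕ := ((wd f).filter (fun x => n ≤ x)).image (fun x => x - n)

theorem xx_sub {n : ℕ} (f : L n) : xx f ⊆ range n := by
  intro x hx
  unfold xx at hx
  rw [mem_filter] at hx
  exact mem_range.2 hx.2

theorem yy_sub {n : ℕ} (f : L n) : yy f ⊆ range n := by
  intro x hx
  unfold yy at hx
  rw [mem_image] at hx
  obtain ⟨y, hy, rfl⟩ := hx
  rw [mem_filter] at hy
  have := mem_range.1 (wd_sub f hy.1)
  rw [mem_range]
  omega

theorem mem_yy {n : ℕ} (f : L n) (x : ℕ) : x ∈ yy f ↔ x + n ∈ wd f := by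
  unfold yy
  rw [mem_image]
  constructor
  · rintro ⟨y, hy, rfl⟩
    rw [mem_filter] at hy
    rw [Nat.sub_add_cancel hy.2]
    exact hy.1
  · intro h
    exact ⟨x + n, mem_filter.2 ⟨h, by omega⟩, by omega⟩

theorem wd_count {n : ℕ} (f : L n) (t : ℕ) :
    ((wd f).filter (fun x => x < t)).card =
      ((xx f).filter (fun x => x < t)).card + ((yy f).filter (fun x => x + n < t)).card := by
  have h1 : ((wd f).filter (fun x => x < t)) =
      ((xx f).filter (fun x => x < t)) ∪
      ((yy f).filter (fun x => x + n < t)).image (fun x => x + n) := by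
    ext z
    simp only [mem_filter, mem_union, mem_image, mem_yy, xx]
    constructor
    · rintro ⟨h1, h2⟩
      by_cases hz : z < n
      · exact Or.inl ⟨⟨h1, hz⟩, h2⟩
      · refine Or.inr ⟨z - n, ⟨?_, ?_⟩, by omega⟩
        · rw [Nat.sub_add_cancel (by omega)]
          exact h1
        · omega
    · rintro (⟨⟨h1, h3⟩, h2⟩ | ⟨w, ⟨h1, h2⟩, rfl⟩)
      · exact ⟨h1, h2⟩
      · exact ⟨h1, h2⟩
  rw [h1, card_union_of_disjoint, card_image_of_injective]
  · intro a b hab
    simpa using hab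
  · rw [disjoint_left]
    intro z hz hz'
    rw [mem_filter] at hz
    rw [mem_image] at hz'
    obtain ⟨w, _, rfl⟩ := hz'
    have := mem_range.1 (xx_sub f hz.1)
    omega

theorem xy_card {n : ℕ} (f : L n) : (xx f).card + (yy f).card = n := by
  have h := wd_count f (2 * n)
  have e1 : ((wd f).filter (fun x => x < 2 * n)) = wd f := by
    apply filter_true_of_mem
    intro x hx
    exact mem_range.1 (wd_sub f hx)
  have e2 : ((xx f).filter (fun x => x < 2 * n)) = xx f := by
    apply filter_true_of_mem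
    intro x hx
    have := mem_range.1 (xx_sub f hx)
    omega
  have e3 : ((yy f).filter (fun x => x + n < 2 * n)) = yy f := by
    apply filter_true_of_mem
    intro x hx
    have := mem_range.1 (yy_sub f hx)
    omega
  rw [e1, e2, e3, wd_card] at h
  exact h.symm

theorem le_of_xy {n : ℕ} {f g : L n} (h1 : (xx f).card = (xx g).card) (h2 : le (xx f) (xx g))
    (h3 : le (yy f) (yy g)) : f ≤ g := by
  apply wd_le
  intro t
  rw [wd_count, wd_count]
  have h4 := h2 t
  have h5 : ∀ x, (x + n < t ↔ x < t - n) := by intro x; omega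
  simp only [h5]
  have h6 := h3 (t - n)
  omega

theorem xy_inj {n : ℕ} {f g : L n} (h1 : xx f = xx g) (h2 : yy f = yy g) : f = g := by
  apply le_antisymm
  · exact le_of_xy (by rw [h1]) (by rw [h1]; exact le_refl' _) (by rw [h2]; exact le_refl' _)
  · exact le_of_xy (by rw [h1]) (by rw [h1]; exact le_refl' _) (by rw [h2]; exact le_refl' _)

def Mid (n : ℕ) : Finset (Finset ℕ) :=
  (range n).powerset.filter (fun z => ∑ x ∈ z, x = z.card * (n - 1) / 2)

def KK (n : ℕ) : Finset (Finset ℕ × Finset ℕ) :=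
  ((range n).powerset ×ˢ Mid n).filter (fun p => p.1.card + p.2.card = n)

theorem KK_card (n : ℕ) : (KK n).card ≤ (Mid n).card * n.choose (n / 2) := by
  have h1 : KK n ⊆ (Mid n).biUnion (fun z =>
      (powersetCard (n - z.card) (range n)).image (fun x => (x, z))) := by
    intro p hp
    unfold KK at hp
    rw [mem_filter, mem_product, mem_powerset] at hp
    rw [mem_biUnion]
    refine ⟨p.2, hp.1.2, ?_⟩
    rw [mem_image]
    refine ⟨p.1, ?_, rfl⟩
    rw [mem_powersetCard]
    exact ⟨hp.1.1, by omega⟩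
  refine (card_le_card h1).trans (card_biUnion_le_card_mul _ _ _ ?_)
  intro z _
  refine card_image_le.trans ?_
  rw [card_powersetCard, card_range]
  exact Nat.choose_le_middle _ _

theorem upper_enc (n : ℕ) (hn : 1 ≤ n) :
    Nat.card {A : Set (L n) // IsAntichain (· ≤ ·) A} ≤
      2 ^ (2 * ((Mid n).card * n.choose (n / 2))) := by
  classical
  obtain ⟨c, hc1, hc2⟩ := chain n hn
  have mk1 : ∀ f : L n, (xx f, c (yy f)) ∈ KK n := by
    intro f
    unfold KK Mid
    rw [mem_filter, mem_product, mem_powerset, mem_filter, mem_powerset]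
    obtain ⟨h1, h2, h3⟩ := hc1 (yy f) (yy_sub f)
    refine ⟨⟨xx_sub f, h1, ?_⟩, ?_⟩
    · show ∑ x ∈ c (yy f), x = (c (yy f)).card * (n - 1) / 2
      rw [h2, h3]
    · show (xx f).card + (c (yy f)).card = n
      rw [h2, xy_card]
  have mk2 : ∀ f : L n, (yy f, c (xx f)) ∈ KK n := by
    intro f
    unfold KK Mid
    rw [mem_filter, mem_product, mem_powerset, mem_filter, mem_powerset]
    obtain ⟨h1, h2, h3⟩ := hc1 (xx f) (xx_sub f)
    refine ⟨⟨yy_sub f, h1, ?_⟩, ?_⟩
    · show ∑ x ∈ c (xx f), x = (c (xx f)).card * (n - 1) / 2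
      rw [h2, h3]
    · show (yy f).card + (c (xx f)).card = n
      rw [h2, add_comm, xy_card]
  let Φ : {A : Set (L n) // IsAntichain (· ≤ ·) A} → Set (KK n) × Set (KK n) := fun A =>
    ((fun f : L n => (⟨(xx f, c (yy f)), mk1 f⟩ : KK n)) '' A.1,
      (fun f : L n => (⟨(yy f, c (xx f)), mk2 f⟩ : KK n)) '' A.1)
  have hΦ : ∀ A B, Φ A = Φ B → A.1 ⊆ B.1 := by
    intro A B hAB
    have E1 : (fun f : L n => (⟨(xx f, c (yy f)), mk1 f⟩ : KK n)) '' A.1 =
      (fun f : L n => (⟨(xx f, c (yy f)), mk1 f⟩ : KK n)) '' B.1 := congrArg Prod.fst hAB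
    have E2 : (fun f : L n => (⟨(yy f, c (xx f)), mk2 f⟩ : KK n)) '' A.1 =
      (fun f : L n => (⟨(yy f, c (xx f)), mk2 f⟩ : KK n)) '' B.1 := congrArg Prod.snd hAB
    have F1 : ∀ A B : Set (L n), (fun f : L n => (⟨(xx f, c (yy f)), mk1 f⟩ : KK n)) '' A =
        (fun f : L n => (⟨(xx f, c (yy f)), mk1 f⟩ : KK n)) '' B →
        ∀ b ∈ B, ∃ a ∈ A, xx a = xx b ∧ c (yy a) = c (yy b) := by
      intro A B hE b hb
      have h1 : (⟨(xx b, c (yy b)), mk1 b⟩ : KK n) ∈
          (fun f : L n => (⟨(xx f, c (yy f)), mk1 f⟩ : KK n)) '' A := by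
        rw [hE]
        exact ⟨b, hb, rfl⟩
      obtain ⟨a, ha, he⟩ := h1
      have he' := congrArg Subtype.val he
      exact ⟨a, ha, congrArg Prod.fst he', congrArg Prod.snd he'⟩
    have F2 : ∀ A B : Set (L n), (fun f : L n => (⟨(yy f, c (xx f)), mk2 f⟩ : KK n)) '' A =
        (fun f : L n => (⟨(yy f, c (xx f)), mk2 f⟩ : KK n)) '' B →
        ∀ b ∈ B, ∃ a ∈ A, yy a = yy b ∧ c (xx a) = c (xx b) := by
      intro A B hE b hb
      have h1 : (⟨(yy b, c (xx b)), mk2 b⟩ : KK n) ∈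
          (fun f : L n => (⟨(yy f, c (xx f)), mk2 f⟩ : KK n)) '' A := by
        rw [hE]
        exact ⟨b, hb, rfl⟩
      obtain ⟨a, ha, he⟩ := h1
      have he' := congrArg Subtype.val he
      exact ⟨a, ha, congrArg Prod.fst he', congrArg Prod.snd he'⟩
    refine enc (fun f : L n => xx f) (fun f : L n => yy f) (fun S => ∑ x ∈ S, x) c
      (fun f g => f ≤ g) (fun S T => S.card = T.card ∧ le S T) ?_ ?_ ?_ ?_ A.1 B.1 ?_ ?_
      (F1 A.1 B.1 E1) (F1 B.1 A.1 E1.symm) (F2 B.1 A.1 E2.symm) (F2 A.1 B.1 E2)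
    · intro a b h1 h2
      exact hc2 _ _ (xx_sub a) (xx_sub b) h1 h2
    · intro a b h1 h2
      exact hc2 _ _ (yy_sub a) (yy_sub b) h1 h2
    · intro a b h1 h2
      exact le_of_xy h1.1 h1.2 h2.2
    · intro a b h1 h2
      exact xy_inj h1 h2
    · intro a ha b hb hab
      exact A.2.eq ha hb hab
    · intro a ha b hb hab
      exact B.2.eq ha hb hab
  have hinj : Function.Injective Φ := by
    intro A B hAB
    exact Subtype.ext (Set.Subset.antisymm (hΦ A B hAB) (hΦ B A hAB.symm))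
  refine (Nat.card_le_card_of_injective Φ hinj).trans ?_
  rw [Nat.card_prod]
  have hS : Nat.card (Set (KK n)) = 2 ^ (KK n).card := by
    rw [Nat.card_eq_fintype_card, Fintype.card_set, Fintype.card_coe]
  rw [hS, ← pow_add, ← two_mul]
  exact Nat.pow_le_pow_right (by norm_num) (Nat.mul_le_mul_left 2 (KK_card n))

end Pool.Agent.X330.LN
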