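import Mathlib
import Pool.Agent.X330.LN.Enc

set_option autoImplicit false

namespace Pool.Agent.X330.LN

open Finset

/-! ### Every word comes from a partition -/

theorem gap {n : ℕ} (e : Fin n ↪o ℕ) (k : ℕ) : ∀ i j : Fin n, (j : ℕ) = i + k → e i + k ≤ e j := by
  induction k with
  | zero =>
    intro i j h
    have : i = j := Fin.ext (by omega)
    rw [this]
    omega
  | succ k ih =>
    intro i j h
    have h1 := ih i ⟨i + k, by have := j.2; omega⟩ rfl
    have h2 : (⟨i + k, by have := j.2; omega⟩ : Fin n) < j := by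
      show (i : ℕ) + k < j
      omega
    have h3 := e.strictMono h2
    omega

theorem wd_surj {n : ℕ} (S : Finset ℕ) (h1 : S ⊆ range (2 * n)) (h2 : S.card = n) :
    ∃ f : L n, wd f = S := by
  set e := S.orderEmbOfFin h2 with he
  have hlow : ∀ j : Fin n, (j : ℕ) ≤ e j := by
    intro j
    have := gap e j ⟨0, by have := j.2; omega⟩ j (by simp)
    omega
  have hup : ∀ j : Fin n, e j ≤ n + j := by
    intro j
    have hn : 0 < n := by have := j.2; omega
    have h3 := gap e (n - 1 - j) j ⟨n - 1, by omega⟩ (by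
      show n - 1 = (j : ℕ) + (n - 1 - j)
      have := j.2
      omega)
    have h4 : e ⟨n - 1, by omega⟩ ∈ S := S.orderEmbOfFin_mem h2 _
    have h5 := mem_range.1 (h1 h4)
    have := j.2
    omega
  let f : Fin n → Fin (n + 1) := fun i => ⟨e i.rev - i.rev, by
    have a1 := hlow i.rev
    have a2 := hup i.rev
    omega⟩
  have hf : Antitone f := by
    intro i j hij
    show e j.rev - (j.rev : ℕ) ≤ e i.rev - (i.rev : ℕ)
    have hij' : (i : ℕ) ≤ j := hij
    have a1 : (i.rev : ℕ) = j.rev + (j - i) := by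
      rw [Fin.val_rev, Fin.val_rev]
      have := j.2
      omega
    have a2 := gap e (j - i) j.rev i.rev a1
    have a3 := hlow j.rev
    omega
  refine ⟨⟨f, hf⟩, ?_⟩
  have hs : ∀ i, sq (⟨f, hf⟩ : L n) i = e i.rev := by
    intro i
    unfold sq
    show e i.rev - (i.rev : ℕ) + (n - 1 - i) = e i.rev
    have a1 := hlow i.rev
    have a2 : (i.rev : ℕ) = n - 1 - i := by
      rw [Fin.val_rev]
      omega
    omega
  unfold wd
  ext x
  rw [mem_image]
  constructor
  · rintro ⟨i, -, rfl⟩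
    rw [hs]
    exact S.orderEmbOfFin_mem h2 _
  · intro hx
    have h3 : x ∈ Set.range e := by
      rw [he, S.range_orderEmbOfFin h2]
      exact hx
    obtain ⟨j, rfl⟩ := h3
    exact ⟨j.rev, mem_univ _, by rw [hs, Fin.rev_rev]⟩

theorem wd_inj {n : ℕ} {f g : L n} (h : wd f = wd g) : f = g :=
  le_antisymm (wd_le (by rw [h]; exact le_refl' _)) (wd_le (by rw [h]; exact le_refl' _))

/-- The area of a diagram. -/
def area {n : ℕ} (f : L n) : ℕ := ∑ i, ((f.1 i : Fin (n + 1)) : ℕ)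

theorem sum_wd {n : ℕ} (f : L n) : 2 * ∑ x ∈ wd f, x = 2 * area f + n * (n - 1) := by
  unfold wd area
  rw [sum_image (fun a _ b _ h => sq_inj f h)]
  unfold sq
  rw [sum_add_distrib, mul_add]
  congr 1
  have h1 := Fin.sum_univ_eq_sum_range (fun i => n - 1 - i) n
  rw [h1, sum_range_reflect (fun i => i) n, mul_comm]
  exact sum_range_id_mul_two n

theorem mem_wd_Lv {n r : ℕ} (f : L n) :
    wd f ∈ Lv (2 * n) n r ↔ 2 * area f + n * (n - 1) = 2 * r := by
  rw [mem_Lv, ← sum_wd]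
  constructor
  · rintro ⟨_, _, h⟩
    rw [h]
  · intro h
    exact ⟨wd_sub f, wd_card f, by omega⟩

/-- The size of the middle rank level. -/
noncomputable def M (n : ℕ) : ℕ := Nat.card {f : L n // area f = n ^ 2 / 2}

theorem mid_arith (n a : ℕ) (hn : 1 ≤ n) :
    a = n ^ 2 / 2 ↔ 2 * a + n * (n - 1) = 2 * (n * (2 * n - 1) / 2) := by
  obtain ⟨m, rfl⟩ : ∃ m, n = m + 1 := ⟨n - 1, by omega⟩
  have e1 : 2 * (m + 1) - 1 = 2 * m + 1 := by omega
  rw [e1, Nat.add_sub_cancel]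
  obtain ⟨b, hb⟩ := Nat.even_mul_succ_self m
  have e2 : (m + 1) ^ 2 = m * (m + 1) + (m + 1) := by ring
  have e3 : (m + 1) * (2 * m + 1) = m * (m + 1) + m * (m + 1) + (m + 1) := by ring
  have e4 : (m + 1) * m = m * (m + 1) := by ring
  rw [e2, e3, e4, hb]
  omega

theorem M_eq (n : ℕ) (hn : 1 ≤ n) : M n = (Lv (2 * n) n (n * (2 * n - 1) / 2)).card := by
  unfold M
  have h1 : Nat.card {f : L n // area f = n ^ 2 / 2} =
      Nat.card (Lv (2 * n) n (n * (2 * n - 1) / 2)) := by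
    refine Nat.card_congr (Equiv.ofBijective (fun f : {f : L n // area f = n ^ 2 / 2} =>
      (⟨wd f.1, (mem_wd_Lv f.1).2 ((mid_arith n _ hn).1 f.2)⟩ :
        Lv (2 * n) n (n * (2 * n - 1) / 2))) ⟨?_, ?_⟩)
    · intro f g h
      exact Subtype.ext (wd_inj (congrArg Subtype.val h))
    · rintro ⟨S, hS⟩
      obtain ⟨a1, a2, a3⟩ := mem_Lv.1 hS
      obtain ⟨f, rfl⟩ := wd_surj S a1 a2
      exact ⟨⟨f, (mid_arith n _ hn).2 ((mem_wd_Lv f).1 hS)⟩, rfl⟩
  rw [h1, Nat.card_eq_fintype_card, Fintype.card_coe]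

theorem Lv_le_mid (N k r : ℕ) (hN : 1 ≤ N) :
    (Lv N k r).card ≤ (Lv N k (k * (N - 1) / 2)).card := by
  obtain ⟨c, h1, h2⟩ := chain_k N k hN
  apply card_le_card_of_injOn c
  · intro S hS
    obtain ⟨a1, a2, a3⟩ := mem_Lv.1 hS
    exact mem_Lv.2 (h1 S a1 a2)
  · intro S hS T hT he
    obtain ⟨a1, a2, a3⟩ := mem_Lv.1 hS
    obtain ⟨b1, b2, b3⟩ := mem_Lv.1 hT
    exact le_anti (h2 S T a1 a2 b1 b2 he (by omega)) (h2 T S b1 b2 a1 a2 he.symm (by omega))

/-! ### Every subset of a level is an antichain -/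

theorem low_anti (n : ℕ) : 2 ^ M n ≤ Nat.card {A : Set (L n) // IsAntichain (· ≤ ·) A} := by
  have h1 : Nat.card (Set {f : L n // area f = n ^ 2 / 2}) = 2 ^ M n := by
    unfold M
    rw [Nat.card_eq_fintype_card, Fintype.card_set, Nat.card_eq_fintype_card]
  rw [← h1]
  let Ψ : Set {f : L n // area f = n ^ 2 / 2} → {A : Set (L n) // IsAntichain (· ≤ ·) A} :=
    fun X => ⟨Subtype.val '' X, by
      rintro f ⟨⟨f', hf⟩, _, rfl⟩ g ⟨⟨g', hg⟩, _, rfl⟩ hne hle
      apply hne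
      show f' = g'
      have hle' : ∀ i, ((f'.1 i : Fin (n + 1)) : ℕ) ≤ (g'.1 i : ℕ) := fun i => hle i
      have hsum : ∑ i, ((f'.1 i : Fin (n + 1)) : ℕ) = ∑ i, ((g'.1 i : Fin (n + 1)) : ℕ) :=
        hf.trans hg.symm
      have h2 := (sum_eq_sum_iff_of_le (fun i _ => hle' i)).1 hsum
      apply Subtype.ext
      funext i
      exact Fin.ext (h2 i (mem_univ i))⟩
  apply Nat.card_le_card_of_injective Ψ
  intro X Y hXY
  have h3 : (Subtype.val '' X : Set (L n)) = Subtype.val '' Y := congrArg Subtype.val hXY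
  exact Set.image_injective.2 Subtype.val_injective h3

/-! ### The second moment of the area -/

theorem cnt_mem {s : Finset ℕ} {x : ℕ} (hx : x ∈ s) (k : ℕ) :
    ((powersetCard (k + 1) s).filter (fun S => x ∈ S)).card = (s.card - 1).choose k := by
  have h1 : (powersetCard (k + 1) s).filter (fun S => x ∈ S) =
      (powersetCard k (s.erase x)).image (insert x) := by
    ext S
    simp only [mem_filter, mem_powersetCard, mem_image]
    constructor
    · rintro ⟨⟨a1, a2⟩, a3⟩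
      refine ⟨S.erase x, ⟨erase_subset_erase x a1, ?_⟩, insert_erase a3⟩
      rw [card_erase_of_mem a3, a2]
      rfl
    · rintro ⟨T, ⟨a1, a2⟩, rfl⟩
      refine ⟨⟨?_, ?_⟩, mem_insert_self _ _⟩
      · intro y hy
        rw [mem_insert] at hy
        rcases hy with rfl | hy
        · exact hx
        · exact mem_of_mem_erase (a1 hy)
      · rw [card_insert_of_notMem (fun h => (notMem_erase x s) (a1 h)), a2]
  rw [h1, card_image_of_injOn, card_powersetCard, card_erase_of_mem hx]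
  intro T hT T' hT' he
  rw [mem_coe, mem_powersetCard] at hT hT'
  have a1 : x ∉ T := fun h => (notMem_erase x s) (hT.1 h)
  have a2 : x ∉ T' := fun h => (notMem_erase x s) (hT'.1 h)
  rw [← erase_insert a1, ← erase_insert a2, he]

theorem cnt_mem2 {s : Finset ℕ} {x y : ℕ} (hx : x ∈ s) (hy : y ∈ s) (hxy : x ≠ y) (k : ℕ) :
    ((powersetCard (k + 2) s).filter (fun S => x ∈ S ∧ y ∈ S)).card =
      (s.card - 1 - 1).choose k := by
  have h1 : (powersetCard (k + 2) s).filter (fun S => x ∈ S ∧ y ∈ S) =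
      ((powersetCard (k + 1) (s.erase x)).filter (fun S => y ∈ S)).image (insert x) := by
    ext S
    simp only [mem_filter, mem_powersetCard, mem_image]
    constructor
    · rintro ⟨⟨a1, a2⟩, a3, a4⟩
      refine ⟨S.erase x, ⟨⟨erase_subset_erase x a1, ?_⟩, mem_erase.2 ⟨hxy.symm, a4⟩⟩,
        insert_erase a3⟩
      rw [card_erase_of_mem a3, a2]
      rfl
    · rintro ⟨T, ⟨⟨a1, a2⟩, a3⟩, rfl⟩
      refine ⟨⟨?_, ?_⟩, mem_insert_self _ _, mem_insert_of_mem a3⟩
      · intro y hy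
        rw [mem_insert] at hy
        rcases hy with rfl | hy
        · exact hx
        · exact mem_of_mem_erase (a1 hy)
      · rw [card_insert_of_notMem (fun h => (notMem_erase x s) (a1 h)), a2]
  rw [h1, card_image_of_injOn, cnt_mem (mem_erase.2 ⟨hxy.symm, hy⟩), card_erase_of_mem hx]
  intro T hT T' hT' he
  rw [mem_coe, mem_filter, mem_powersetCard] at hT hT'
  have a1 : x ∉ T := fun h => (notMem_erase x s) (hT.1.1 h)
  have a2 : x ∉ T' := fun h => (notMem_erase x s) (hT'.1.1 h)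
  rw [← erase_insert a1, ← erase_insert a2, he]

theorem moment (s : Finset ℕ) (k : ℕ) (d : ℕ → ℝ) (hd : ∑ x ∈ s, d x = 0) :
    ∑ S ∈ powersetCard (k + 1) s, (∑ x ∈ S, d x) ^ 2 ≤
      (s.card.choose (k + 1) : ℝ) * ∑ x ∈ s, d x ^ 2 := by
  rcases s.eq_empty_or_nonempty with rfl | hne
  · have h0 : powersetCard (k + 1) (∅ : Finset ℕ) = ∅ := powersetCard_eq_empty.2 (by simp)
    rw [h0, sum_empty, sum_empty, mul_zero]
  obtain ⟨b, hb0, hb⟩ : ∃ b : ℝ, 0 ≤ b ∧ ∀ x ∈ s, ∀ y ∈ s, x ≠ y →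
      (((powersetCard (k + 1) s).filter (fun S => x ∈ S ∧ y ∈ S)).card : ℝ) = b := by
    cases k with
    | zero =>
      refine ⟨0, le_rfl, ?_⟩
      intro x hx y hy hxy
      rw [Nat.cast_eq_zero, card_eq_zero, filter_eq_empty_iff]
      intro S hS
      rw [mem_powersetCard, card_eq_one] at hS
      obtain ⟨_, z, rfl⟩ := hS
      rintro ⟨h1, h2⟩
      rw [mem_singleton] at h1 h2
      exact hxy (h1.trans h2.symm)
    | succ k =>
      refine ⟨((s.card - 1 - 1).choose k : ℝ), by positivity, ?_⟩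
      intro x hx y hy hxy
      rw [cnt_mem2 hx hy hxy]
  have h1 : ∀ S ∈ powersetCard (k + 1) s, (∑ x ∈ S, d x) ^ 2 =
      ∑ x ∈ s, ∑ y ∈ s, if (x ∈ S ∧ y ∈ S) then d x * d y else 0 := by
    intro S hS
    rw [mem_powersetCard] at hS
    have e : ∑ x ∈ S, d x = ∑ x ∈ s, if x ∈ S then d x else 0 := by
      rw [← sum_filter, filter_mem_eq_inter, inter_eq_right.2 hS.1]
    rw [pow_two, e, sum_mul_sum]
    apply sum_congr rfl
    intro x _
    apply sum_congr rfl
    intro y _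
    by_cases a : x ∈ S <;> by_cases b : y ∈ S <;> simp [a, b]
  rw [sum_congr rfl h1, sum_comm]
  have h2 : ∀ x ∈ s, ∑ S ∈ powersetCard (k + 1) s, ∑ y ∈ s,
      (if (x ∈ S ∧ y ∈ S) then d x * d y else 0) =
      b * d x * (∑ y ∈ s, d y) + (((s.card - 1).choose k : ℝ) - b) * d x ^ 2 := by
    intro x hx
    rw [sum_comm]
    have h3 : ∀ y ∈ s, ∑ S ∈ powersetCard (k + 1) s,
        (if (x ∈ S ∧ y ∈ S) then d x * d y else 0) =
        b * d x * d y + (if x = y then (((s.card - 1).choose k : ℝ) - b) * d x ^ 2 else 0) := by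
      intro y hy
      rw [← sum_filter, sum_const, nsmul_eq_mul]
      by_cases hxy : x = y
      · subst hxy
        rw [if_pos rfl]
        have e : (powersetCard (k + 1) s).filter (fun S => x ∈ S ∧ x ∈ S) =
          (powersetCard (k + 1) s).filter (fun S => x ∈ S) := by
          apply filter_congr
          intro S _
          simp
        rw [e, cnt_mem hx]
        ring
      · rw [if_neg hxy, hb x hx y hy hxy]
        ring
    rw [sum_congr rfl h3, sum_add_distrib, ← mul_sum, sum_ite_eq, if_pos hx]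
  rw [sum_congr rfl h2, hd]
  simp only [mul_zero, zero_add]
  rw [← mul_sum]
  apply mul_le_mul_of_nonneg_right _ (sum_nonneg (fun x _ => sq_nonneg _))
  have h5 : 0 < s.card := card_pos.2 hne
  obtain ⟨m, hm⟩ : ∃ m, s.card = m + 1 := ⟨s.card - 1, by omega⟩
  rw [hm, Nat.add_sub_cancel, Nat.choose_succ_succ]
  push_cast
  have : (0 : ℝ) ≤ (m.choose (k + 1) : ℝ) := by positivity
  linarith

theorem odd_sum (m : ℕ) : ∑ x ∈ range m, (2 * (x : ℝ) + 1) = (m : ℝ) ^ 2 := by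
  induction m with
  | zero => simp
  | succ m ih =>
    rw [sum_range_succ, ih]
    push_cast
    ring

theorem moment_words (n : ℕ) (hn : 1 ≤ n) :
    ∑ S ∈ powersetCard n (range (2 * n)), (∑ x ∈ S, (2 * (x : ℝ) + 1 - 2 * n)) ^ 2 ≤
      ((2 * n).choose n : ℝ) * (8 * n ^ 3) := by
  obtain ⟨k, hk⟩ : ∃ k, n = k + 1 := ⟨n - 1, by omega⟩
  have h1 := moment (range (2 * n)) k (fun x => 2 * (x : ℝ) + 1 - 2 * n) (by
    rw [sum_sub_distrib, odd_sum, sum_const, card_range, nsmul_eq_mul]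
    push_cast
    ring)
  rw [← hk, card_range] at h1
  refine h1.trans (mul_le_mul_of_nonneg_left ?_ (by positivity))
  have h2 : ∀ x ∈ range (2 * n), (2 * (x : ℝ) + 1 - 2 * n) ^ 2 ≤ 4 * (n : ℝ) ^ 2 := by
    intro x hx
    have h3 : x + 1 ≤ 2 * n := mem_range.1 hx
    have h4 : (x : ℝ) + 1 ≤ 2 * n := by exact_mod_cast h3
    have h5 : (0 : ℝ) ≤ x := Nat.cast_nonneg x
    have h6 : 2 * (x : ℝ) + 1 - 2 * n ≤ 2 * n := by linarith
    have h7 : -(2 * (n : ℝ)) ≤ 2 * (x : ℝ) + 1 - 2 * n := by linarith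
    have := abs_le.2 ⟨h7, h6⟩
    have h8 := sq_le_sq' h7 h6
    nlinarith
  refine (sum_le_sum h2).trans (le_of_eq ?_)
  rw [sum_const, card_range, nsmul_eq_mul]
  push_cast
  ring

theorem M_low (n : ℕ) (hn : 1 ≤ n) :
    ((2 * n).choose n : ℝ) ≤ 2 * ((Nat.sqrt (16 * n ^ 3) : ℝ) + 1) * M n := by
  classical
  set P := powersetCard n (range (2 * n)) with hP
  have hPc : P.card = (2 * n).choose n := by rw [hP, card_powersetCard, card_range]
  set D : Finset ℕ → ℝ := fun S => ∑ x ∈ S, (2 * (x : ℝ) + 1 - 2 * n) with hD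
  have hn0 : (0 : ℝ) < n := by exact_mod_cast hn
  have h1 := moment_words n hn
  have h2 : ((P.filter (fun S => ¬ D S ^ 2 ≤ 16 * n ^ 3)).card : ℝ) * (16 * n ^ 3) ≤
      ∑ S ∈ P, D S ^ 2 := by
    rw [← nsmul_eq_mul, ← sum_const]
    refine le_trans (sum_le_sum ?_) (sum_le_sum_of_subset_of_nonneg (filter_subset _ _)
      (fun S _ _ => sq_nonneg (D S)))
    intro S hS
    rw [mem_filter] at hS
    exact (not_le.1 hS.2).le
  have h3 : ((P.filter (fun S => ¬ D S ^ 2 ≤ 16 * n ^ 3)).card : ℝ) ≤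
      ((2 * n).choose n : ℝ) / 2 := by
    have h4 : ((P.filter (fun S => ¬ D S ^ 2 ≤ 16 * n ^ 3)).card : ℝ) * (16 * n ^ 3) ≤
      ((2 * n).choose n : ℝ) / 2 * (16 * n ^ 3) := by
      refine (h2.trans h1).trans (le_of_eq ?_)
      ring
    exact le_of_mul_le_mul_right h4 (by positivity)
  have h5 : ((P.filter (fun S => D S ^ 2 ≤ 16 * n ^ 3)).card : ℝ) +
      ((P.filter (fun S => ¬ D S ^ 2 ≤ 16 * n ^ 3)).card : ℝ) = ((2 * n).choose n : ℝ) := by
    have e := card_filter_add_card_filter_not (s := P) (fun S => D S ^ 2 ≤ 16 * (n : ℝ) ^ 3)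
    rw [← hPc, ← e, Nat.cast_add]
  set s := Nat.sqrt (16 * n ^ 3) with hs
  set c := n * (2 * n - 1) with hc
  have h6 : P.filter (fun S => D S ^ 2 ≤ 16 * n ^ 3) ⊆
      (Icc ((c - s + 1) / 2) ((c + s) / 2)).biUnion (fun r => Lv (2 * n) n r) := by
    intro S hS
    rw [mem_filter, hP, mem_powersetCard] at hS
    obtain ⟨⟨a1, a2⟩, a3⟩ := hS
    rw [mem_biUnion]
    refine ⟨∑ x ∈ S, x, ?_, mem_Lv.2 ⟨a1, a2, rfl⟩⟩
    have a4 : D S = ((2 * (∑ x ∈ S, x : ℕ) - (c : ℤ) : ℤ) : ℝ) := by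
      rw [hD, hc]
      simp only
      rw [sum_sub_distrib, sum_add_distrib, sum_const, sum_const, a2, ← mul_sum]
      push_cast [Nat.cast_sub (show 1 ≤ 2 * n by omega)]
      simp only [nsmul_eq_mul]
      ring
    rw [a4] at a3
    have a5 : (2 * (∑ x ∈ S, x : ℕ) - (c : ℤ) : ℤ) ^ 2 ≤ ((16 * n ^ 3 : ℕ) : ℤ) := by
      have : (((2 * (∑ x ∈ S, x : ℕ) - (c : ℤ) : ℤ) ^ 2 : ℤ) : ℝ) ≤
        (((16 * n ^ 3 : ℕ) : ℤ) : ℝ) := by
        push_cast at a3 ⊢
        exact a3
      exact_mod_cast this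
    set y : ℤ := (2 * (∑ x ∈ S, x : ℕ) - (c : ℤ) : ℤ) with hy
    have a6 : y.natAbs ≤ s := by
      rw [hs, Nat.le_sqrt']
      have : ((y.natAbs ^ 2 : ℕ) : ℤ) ≤ ((16 * n ^ 3 : ℕ) : ℤ) := by
        push_cast
        rw [sq_abs]
        exact_mod_cast a5
      exact_mod_cast this
    rw [mem_Icc]
    omega
  have h7 : (P.filter (fun S => D S ^ 2 ≤ 16 * n ^ 3)).card ≤ (s + 1) * M n := by
    refine (card_le_card h6).trans ((card_biUnion_le_card_mul _ _ (M n) ?_).trans ?_)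
    · intro r _
      rw [M_eq n hn]
      exact Lv_le_mid (2 * n) n r (by omega)
    · apply Nat.mul_le_mul_right
      rw [Nat.card_Icc]
      omega
  have h8 : ((P.filter (fun S => D S ^ 2 ≤ 16 * n ^ 3)).card : ℝ) ≤ ((s : ℝ) + 1) * M n := by
    exact_mod_cast h7
  linarith

end Pool.Agent.X330.LN
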