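import Mathlib
import Pool.Agent.X330.LN.Low
import Pool.Agent.X330.LN.AC2

set_option autoImplicit false

namespace Pool.Agent.X330.LN

open Finset

theorem central_low (n : ℕ) (hn : 1 ≤ n) : 16 ^ n ≤ (Nat.centralBinom n) ^ 2 * (4 * n) := by
  induction n, hn using Nat.le_induction with
  | base => decide
  | succ j hj ih =>
    have h := Nat.succ_mul_centralBinom_succ j
    have h1 : (j + 1) ^ 2 * 16 ^ (j + 1) ≤
        ((j + 1) * Nat.centralBinom (j + 1)) ^ 2 * (4 * (j + 1)) := by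
      rw [h]
      have e : (2 * (2 * j + 1) * Nat.centralBinom j) ^ 2 * (4 * (j + 1)) =
          Nat.centralBinom j ^ 2 * (16 * (2 * j + 1) ^ 2 * (j + 1)) := by ring
      rw [e, pow_succ 16 j]
      have h2 : 16 * (j + 1) ^ 2 * (4 * j) ≤ 16 * (2 * j + 1) ^ 2 * (j + 1) := by nlinarith
      calc (j + 1) ^ 2 * (16 ^ j * 16) = 16 ^ j * (16 * (j + 1) ^ 2) := by ring
        _ ≤ (Nat.centralBinom j ^ 2 * (4 * j)) * (16 * (j + 1) ^ 2) := Nat.mul_le_mul_right _ ih
        _ = Nat.centralBinom j ^ 2 * (16 * (j + 1) ^ 2 * (4 * j)) := by ring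
        _ ≤ _ := Nat.mul_le_mul_left _ h2
    have h3 : (j + 1) ^ 2 * 16 ^ (j + 1) ≤
        (j + 1) ^ 2 * (Nat.centralBinom (j + 1) ^ 2 * (4 * (j + 1))) := by
      calc _ ≤ ((j + 1) * Nat.centralBinom (j + 1)) ^ 2 * (4 * (j + 1)) := h1
        _ = _ := by ring
    exact Nat.le_of_mul_le_mul_left h3 (by positivity)

theorem anti2 (n : ℕ) (hn : 1 ≤ n) (t : ℤ) :
    cnt (fun x => 2 * (x : ℤ) - (n - 1)) (range n) t ≤ 8000 / (Real.sqrt n) ^ 3 * 2 ^ n := by
  have hn0 : (1 : ℝ) ≤ n := by exact_mod_cast hn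
  set r := Real.sqrt n with hr
  have hr1 : 1 ≤ r := by rw [hr]; exact Real.one_le_sqrt.2 hn0
  have hr2 : r ^ 2 = n := Real.sq_sqrt (by positivity)
  have hr0 : 0 < r := by linarith
  by_cases h6 : 6 ≤ n
  · set q := Nat.sqrt (n / 6) with hq
    have h1 : q ^ 2 ≤ n / 6 := Nat.sqrt_le' _
    have h2 : n / 6 < (q + 1) ^ 2 := Nat.lt_succ_sqrt' _
    have hq1 : 1 ≤ q := by
      by_contra hc
      have : q = 0 := by omega
      rw [this] at h2
      omega
    have h3 : 6 * q ^ 2 ≤ n := by omega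
    have h4 : n ≤ 24 * q ^ 2 := by
      have h5 : n < 6 * (q + 1) ^ 2 := by omega
      nlinarith
    have h5 := anti1 n q hq1 h3 t
    have hq0 : (1 : ℝ) ≤ q := by exact_mod_cast hq1
    have h6 : r ≤ 5 * q := by
      apply le_of_sq_le_sq _ (by positivity)
      rw [hr2]
      have : (n : ℝ) ≤ 24 * (q : ℝ) ^ 2 := by exact_mod_cast h4
      nlinarith
    refine h5.trans (mul_le_mul_of_nonneg_right ?_ (by positivity))
    rw [div_le_div_iff₀ (by positivity) (by positivity)]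
    have h7 : r ^ 3 ≤ (5 * (q : ℝ)) ^ 3 := pow_le_pow_left₀ hr0.le h6 3
    nlinarith
  · have h1 := bd_cnt (fun x => 2 * (x : ℤ) - (n - 1)) (d := 1) (by norm_num) (range n) t {0}
    rw [sum_singleton, mul_zero, add_zero, card_range] at h1
    refine h1.trans ?_
    have h2 : (1 : ℝ) ≤ 8000 / r ^ 3 := by
      rw [one_le_div (by positivity)]
      have h3 : r ≤ 3 := by
        apply le_of_sq_le_sq _ (by norm_num)
        rw [hr2]
        have : (n : ℝ) ≤ 6 := by exact_mod_cast (by omega : n ≤ 6)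
        linarith
      have h7 : r ^ 3 ≤ 3 ^ 3 := pow_le_pow_left₀ hr0.le h3 3
      linarith
    have h4 : (0 : ℝ) < 2 ^ n := by positivity
    nlinarith

theorem Mid_le (n : ℕ) (hn : 1 ≤ n) :
    ((Mid n).card : ℝ) ≤ 16000 / (Real.sqrt n) ^ 3 * 2 ^ n := by
  classical
  have h1 := anti2 n hn 0
  have h2 := anti2 n hn (-1)
  have h3 : Mid n ⊆
      (range n).powerset.filter (fun z => ∑ x ∈ z, (2 * (x : ℤ) - (n - 1)) = 0) ∪
      (range n).powerset.filter (fun z => ∑ x ∈ z, (2 * (x : ℤ) - (n - 1)) = -1) := by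
    intro z hz
    unfold Mid at hz
    rw [mem_filter] at hz
    have e : ∑ x ∈ z, (2 * (x : ℤ) - (n - 1)) = 2 * (∑ x ∈ z, x : ℕ) - (z.card * (n - 1) : ℕ) := by
      rw [sum_sub_distrib, sum_const, ← mul_sum]
      push_cast [Nat.cast_sub hn]
      simp only [nsmul_eq_mul]
    have e2 : (∑ x ∈ z, (2 * (x : ℤ) - (n - 1)) = 0) ∨
        (∑ x ∈ z, (2 * (x : ℤ) - (n - 1)) = -1) := by
      rw [e, hz.2]
      omega
    rw [mem_union, mem_filter, mem_filter]
    rcases e2 with e2 | e2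
    · exact Or.inl ⟨hz.1, e2⟩
    · exact Or.inr ⟨hz.1, e2⟩
  have h4 := (card_le_card h3).trans (card_union_le _ _)
  have h5 : ((Mid n).card : ℝ) ≤ cnt (fun x => 2 * (x : ℤ) - (n - 1)) (range n) 0 +
      cnt (fun x => 2 * (x : ℤ) - (n - 1)) (range n) (-1) := by
    unfold cnt
    exact_mod_cast h4
  refine h5.trans ((add_le_add h1 h2).trans (le_of_eq ?_))
  ring

theorem main (n : ℕ) (hn : 1 ≤ n) :
    (M n : ℝ) ≤ Real.logb 2 (Nat.card {A : Set (L n) // IsAntichain (· ≤ ·) A}) ∧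
    Real.logb 2 (Nat.card {A : Set (L n) // IsAntichain (· ≤ ·) A}) ≤
      64000 * (((2 * n).choose n : ℝ) / (Real.sqrt n) ^ 3) ∧
    ((2 * n).choose n : ℝ) / (Real.sqrt n) ^ 3 ≤ 10 * M n := by
  have hn0 : (1 : ℝ) ≤ n := by exact_mod_cast hn
  have hr1 : 1 ≤ Real.sqrt n := Real.one_le_sqrt.2 hn0
  have hr2 : (Real.sqrt n) ^ 2 = n := Real.sq_sqrt (by positivity)
  have hM := Mid_le n hn
  set r := Real.sqrt n with hr
  have hr0 : 0 < r := by linarith
  set X := Nat.card {A : Set (L n) // IsAntichain (· ≤ ·) A} with hX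
  have hup := upper_enc n hn
  have hlo := low_anti n
  rw [← hX] at hup hlo
  have hX1 : (0 : ℝ) < X := by
    have : 0 < X := lt_of_lt_of_le (by positivity) hlo
    exact_mod_cast this
  refine ⟨?_, ?_, ?_⟩
  · rw [Real.le_logb_iff_rpow_le (by norm_num) hX1, Real.rpow_natCast]
    exact_mod_cast hlo
  · have h1 : Real.logb 2 X ≤ 2 * ((Mid n).card * n.choose (n / 2)) := by
      rw [Real.logb_le_iff_le_rpow (by norm_num) hX1]
      have e : (2 : ℝ) * (((Mid n).card : ℝ) * (n.choose (n / 2) : ℝ)) =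
          ((2 * ((Mid n).card * n.choose (n / 2)) : ℕ) : ℝ) := by push_cast; ring
      rw [e, Real.rpow_natCast]
      exact_mod_cast hup
    refine h1.trans ?_
    have h2 : (n.choose (n / 2) : ℝ) ≤ 2 ^ n / r := by
      have h3 : gam n ≤ 1 / r := by
        apply le_of_sq_le_sq _ (by positivity)
        refine (gam_sq n).trans ?_
        rw [div_pow, one_pow, hr2]
        exact one_div_le_one_div_of_le (by positivity) (by linarith)
      unfold gam at h3
      rw [div_le_div_iff₀ (by positivity) hr0, one_mul] at h3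
      rw [le_div_iff₀ hr0]
      exact h3
    have h4 : (4 : ℝ) ^ n ≤ ((2 * n).choose n : ℝ) * (2 * r) := by
      apply le_of_sq_le_sq _ (by positivity)
      have h5 := central_low n hn
      rw [Nat.centralBinom_eq_two_mul_choose] at h5
      have h6 : ((16 ^ n : ℕ) : ℝ) ≤ (((2 * n).choose n ^ 2 * (4 * n) : ℕ) : ℝ) := by
        exact_mod_cast h5
      push_cast at h6
      calc ((4 : ℝ) ^ n) ^ 2 = 16 ^ n := by rw [← pow_mul, mul_comm n 2, pow_mul]; norm_num
        _ ≤ _ := h6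
        _ = (((2 * n).choose n : ℝ) * (2 * r)) ^ 2 := by rw [← hr2]; ring
    have h7 : ((Mid n).card : ℝ) * (n.choose (n / 2) : ℝ) ≤
        (16000 / r ^ 3 * 2 ^ n) * (2 ^ n / r) :=
      mul_le_mul hM h2 (by positivity) (by positivity)
    have h8 : (16000 / r ^ 3 * 2 ^ n) * (2 ^ n / r) = 16000 / r ^ 4 * (4 : ℝ) ^ n := by
      have : (4 : ℝ) ^ n = 2 ^ n * 2 ^ n := by rw [← mul_pow]; norm_num
      rw [this]
      field_simp
    have h9 : 16000 / r ^ 4 * (4 : ℝ) ^ n ≤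
        16000 / r ^ 4 * (((2 * n).choose n : ℝ) * (2 * r)) :=
      mul_le_mul_of_nonneg_left h4 (by positivity)
    have h10 : 16000 / r ^ 4 * (((2 * n).choose n : ℝ) * (2 * r)) =
        32000 * (((2 * n).choose n : ℝ) / r ^ 3) := by
      field_simp
      ring
    linarith
  · have h1 := M_low n hn
    have h2 : (Nat.sqrt (16 * n ^ 3) : ℝ) ≤ 4 * r ^ 3 := by
      apply le_of_sq_le_sq _ (by positivity)
      have h3 : Nat.sqrt (16 * n ^ 3) ^ 2 ≤ 16 * n ^ 3 := Nat.sqrt_le' _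
      have h4 : ((Nat.sqrt (16 * n ^ 3) ^ 2 : ℕ) : ℝ) ≤ ((16 * n ^ 3 : ℕ) : ℝ) := by
        exact_mod_cast h3
      push_cast at h4
      refine h4.trans (le_of_eq ?_)
      rw [← hr2]
      ring
    have h3 : (1 : ℝ) ≤ r ^ 3 := one_le_pow₀ hr1
    rw [div_le_iff₀ (by positivity)]
    refine h1.trans ?_
    have h4 : 2 * ((Nat.sqrt (16 * n ^ 3) : ℝ) + 1) ≤ 10 * r ^ 3 := by linarith
    have h5 := mul_le_mul_of_nonneg_right h4 (by positivity : (0 : ℝ) ≤ M n)
    refine h5.trans (le_of_eq ?_)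
    ring

end Pool.Agent.X330.LN
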